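import Pool.Agent.H940.S.Eul

set_option autoImplicit false
set_option linter.unusedSectionVars false
set_option linter.unusedVariables false

/-! # Descent of linear relations to a subfield -/

namespace Pool.Agent.H940.S

open MvPolynomial Pool.Agent.H940.R

variable {K L : Type} [Field K] [Field L] {n : ℕ}

/-- a linear retraction -/
theorem exists_lam (φ : K →+* L) : ∃ lam : L →+ K, (∀ a x, lam (φ a * x) = a * lam x) ∧
    lam 1 = 1 := by
  letI : Algebra K L := φ.toAlgebra
  obtain ⟨g, hg⟩ := (Algebra.linearMap K L).exists_leftInverse_of_injective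
    (LinearMap.ker_eq_bot.2 φ.injective)
  refine ⟨g.toAddMonoidHom, fun a x => ?_, ?_⟩
  · have h1 : φ a * x = a • x := rfl
    rw [LinearMap.toAddMonoidHom_coe, h1, map_smul, smul_eq_mul]
  · have h1 := LinearMap.congr_fun hg 1
    rw [LinearMap.comp_apply, Algebra.linearMap_apply, map_one, LinearMap.id_apply] at h1
    exact h1

/-- the coefficientwise map -/
noncomputable def lamP (lam : L →+ K) (F : MvPolynomial (Fin n) L) : MvPolynomial (Fin n) K :=
  ∑ d ∈ F.support, monomial d (lam (coeff d F))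

theorem coeff_lamP (lam : L →+ K) (F : MvPolynomial (Fin n) L) (d : Fin n →₀ ℕ) :
    coeff d (lamP lam F) = lam (coeff d F) := by
  classical
  unfold lamP
  rw [coeff_sum]
  simp only [coeff_monomial]
  rw [Finset.sum_ite_eq']
  split_ifs with h
  · rfl
  · rw [notMem_support_iff.1 h, map_zero]

theorem lamP_add (lam : L →+ K) (F G : MvPolynomial (Fin n) L) :
    lamP lam (F + G) = lamP lam F + lamP lam G := by
  ext d
  rw [coeff_lamP, coeff_add, coeff_add, map_add, coeff_lamP, coeff_lamP]

theorem lamP_sub (lam : L →+ K) (F G : MvPolynomial (Fin n) L) :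
    lamP lam (F - G) = lamP lam F - lamP lam G := by
  ext d
  rw [coeff_lamP, coeff_sub, coeff_sub, map_sub, coeff_lamP, coeff_lamP]

theorem lamP_sum (lam : L →+ K) {ι : Type} (s : Finset ι) (F : ι → MvPolynomial (Fin n) L) :
    lamP lam (∑ i ∈ s, F i) = ∑ i ∈ s, lamP lam (F i) := by
  ext d
  rw [coeff_lamP, coeff_sum, coeff_sum, map_sum]
  exact Finset.sum_congr rfl fun i _ => (coeff_lamP _ _ _).symm

theorem lamP_mem {lam : L →+ K} {F : MvPolynomial (Fin n) L} {k : ℕ} (h : F ∈ wI L 1 k) :
    lamP lam F ∈ wI K 1 k := by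
  intro d hd
  rw [coeff_lamP, h d hd, map_zero]

theorem cc_lamP (lam : L →+ K) (F : MvPolynomial (Fin n) L) :
    constantCoeff (lamP lam F) = lam (constantCoeff F) := by
  rw [constantCoeff_eq, coeff_lamP, constantCoeff_eq]

theorem cc_pd (F : MvPolynomial (Fin n) L) (t : Fin n) :
    constantCoeff (pderiv t F) = coeff (Finsupp.single t 1) F := by
  rw [constantCoeff_eq, coeff_pderiv, zero_add]
  simp

variable {φ : K →+* L} {lam : L →+ K} (h : ∀ a x, lam (φ a * x) = a * lam x) (h1 : lam 1 = 1)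
include h

theorem lamP_mul (F : MvPolynomial (Fin n) K) (G : MvPolynomial (Fin n) L) :
    lamP lam (map φ F * G) = F * lamP lam G := by
  classical
  ext d
  rw [coeff_lamP, coeff_mul, coeff_mul, map_sum]
  refine Finset.sum_congr rfl fun q _ => ?_
  rw [coeff_map, h, coeff_lamP]

include h1

theorem lamP_map (F : MvPolynomial (Fin n) K) : lamP lam (map φ F) = F := by
  classical
  have h2 := lamP_mul h F (1 : MvPolynomial (Fin n) L)
  rw [mul_one] at h2
  have h3 : lamP lam (1 : MvPolynomial (Fin n) L) = 1 := by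
    ext d
    rw [coeff_lamP, coeff_one, coeff_one]
    split_ifs
    · exact h1
    · exact map_zero _
  rw [h2, h3, mul_one]

/-- **Descent of the Euler relation.** -/
theorem eul_desc [CharZero K] [CharZero L] {F : MvPolynomial (Fin n) K} {k : ℕ} {τ : ℚ}
    (H : Eul (map φ F) k (τ : L)) : Eul F k (τ : K) := by
  obtain ⟨u, D, hu, hD, hr, htr⟩ := H
  refine ⟨lamP lam u, fun t => lamP lam (D t), ?_, fun t => ?_, ?_, ?_⟩
  · rw [cc_lamP, hu, h1]
  · rw [cc_lamP, hD, map_zero]
  · have h2 := lamP_mem (lam := lam) hr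
    rw [lamP_sub, lamP_sum, mul_comm u, lamP_mul h] at h2
    have h3 : ∀ t, lamP lam (D t * pderiv t (map φ F)) = lamP lam (D t) * pderiv t F := by
      intro t
      rw [pderiv_map, mul_comm, lamP_mul h, mul_comm]
    rw [Finset.sum_congr rfl fun t _ => h3 t, mul_comm] at h2
    exact h2
  · have h2 : ∀ t, constantCoeff (pderiv t (lamP lam (D t))) =
        lam (constantCoeff (pderiv t (D t))) := by
      intro t
      rw [cc_pd, cc_pd, coeff_lamP]
    rw [Finset.sum_congr rfl fun t _ => h2 t, ← map_sum, htr]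
    have h3 := h (τ : K) 1
    rw [map_ratCast, mul_one, h1, mul_one] at h3
    exact h3

/-- **Descent of the Jacobian ideal.** -/
theorem jac_desc {F : MvPolynomial (Fin n) K} {M k : ℕ}
    (H : wI L 1 M ≤ Jac (map φ F) ⊔ wI L 1 k) : wI K 1 M ≤ Jac F ⊔ wI K 1 k := by
  intro G hG
  have h2 : map φ G ∈ wI L 1 M := by
    intro d hd
    rw [coeff_map, hG d hd, map_zero]
  obtain ⟨y, hy, z, hz, hyz⟩ := Submodule.mem_sup.1 (H h2)
  unfold Jac at hy
  obtain ⟨c, hc⟩ := Ideal.mem_span_range_iff_exists_fun.1 hy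
  have h3 := congrArg (lamP lam) hyz
  rw [lamP_add, lamP_map h h1, ← hc, lamP_sum] at h3
  rw [← h3]
  refine Submodule.add_mem_sup (Ideal.sum_mem _ fun t _ => ?_) (lamP_mem hz)
  rw [pderiv_map, mul_comm, lamP_mul h]
  exact Ideal.mul_mem_right _ _ (pd_mem_Jac F t)

end Pool.Agent.H940.S
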