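import Pool.Agent.H940.S.Basic

set_option autoImplicit false
set_option linter.unusedSectionVars false
set_option linter.unusedVariables false

/-! # Truncated polynomial rings -/

namespace Pool.Agent.H940.S

open MvPolynomial Pool.Agent.H940.R

variable {K : Type} [Field K] {n k : ℕ}

variable (K n k) in
/-- the truncated polynomial ring -/
abbrev Tq : Type := MvPolynomial (Fin n) K ⧸ wI K (1 : Fin n → ℕ) k

variable (k) in
/-- the projection -/
noncomputable def qa : MvPolynomial (Fin n) K →ₐ[K] Tq K n k := Ideal.Quotient.mkₐ K _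

theorem qa_eq {F G : MvPolynomial (Fin n) K} : qa k F = qa k G ↔ F - G ∈ wI K 1 k :=
  Ideal.Quotient.eq

theorem qa_surj : Function.Surjective (qa k : MvPolynomial (Fin n) K →ₐ[K] Tq K n k) :=
  Ideal.Quotient.mkₐ_surjective K _

/-- linear maps of the quotient -/
theorem exists_lift {W : Type} [AddCommGroup W] [Module K W]
    (f : MvPolynomial (Fin n) K →ₗ[K] W) (hf : ∀ F ∈ wI K 1 k, f F = 0) :
    ∃ f' : Tq K n k →ₗ[K] W, ∀ F, f' (qa k F) = f F := by
  obtain ⟨s, hs⟩ := (qa k : MvPolynomial (Fin n) K →ₐ[K] Tq K n k).toLinearMap.exists_rightInverse_of_surjective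
    (LinearMap.range_eq_top.2 qa_surj)
  refine ⟨f.comp s, fun F => ?_⟩
  have h1 : qa k (s (qa k F)) = qa k F := LinearMap.congr_fun hs (qa k F)
  have h2 := hf _ (qa_eq.1 h1)
  rw [map_sub, sub_eq_zero] at h2
  exact h2

instance finTq : FiniteDimensional K (Tq K n k) := by
  classical
  have hfin : {α : Fin n →₀ ℕ | α.degree ≤ k}.Finite := Finsupp.finite_of_degree_le k
  refine ⟨⟨hfin.toFinset.image fun α => qa k (monomial α (1 : K)), ?_⟩⟩
  rw [eq_top_iff]
  intro x _
  obtain ⟨F, rfl⟩ := qa_surj x
  rw [F.as_sum, map_sum]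
  refine Submodule.sum_mem _ fun α _ => ?_
  have h1 : monomial α (coeff α F) = coeff α F • monomial α (1 : K) := by
    rw [smul_monomial, smul_eq_mul, mul_one]
  rw [h1, map_smul]
  refine Submodule.smul_mem _ _ ?_
  by_cases h : α.degree ≤ k
  · refine Submodule.subset_span ?_
    rw [Finset.coe_image]
    exact ⟨α, by rw [Finset.mem_coe, Set.Finite.mem_toFinset]; exact h, rfl⟩
  · have h2 : qa k (monomial α (1 : K)) = qa k 0 := by
      rw [qa_eq, sub_zero]
      intro β hβ
      rw [weight_degree] at hβ
      rw [coeff_monomial, if_neg]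
      intro hc
      rw [hc] at h
      omega
    rw [h2, map_zero]
    exact Submodule.zero_mem _

/-- the vector field as a linear map -/
noncomputable def vf (D : Fin n → MvPolynomial (Fin n) K) :
    MvPolynomial (Fin n) K →ₗ[K] MvPolynomial (Fin n) K where
  toFun F := ∑ t, D t * pderiv t F
  map_add' F G := by
    rw [← Finset.sum_add_distrib]
    exact Finset.sum_congr rfl fun t _ => by rw [map_add, mul_add]
  map_smul' c F := by
    rw [RingHom.id_apply, Finset.smul_sum]
    exact Finset.sum_congr rfl fun t _ => by rw [Derivation.map_smul, mul_smul_comm]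

theorem vf_apply (D : Fin n → MvPolynomial (Fin n) K) (F : MvPolynomial (Fin n) K) :
    vf D F = ∑ t, D t * pderiv t F := rfl

theorem vf_mul (D : Fin n → MvPolynomial (Fin n) K) (F G : MvPolynomial (Fin n) K) :
    vf D (F * G) = vf D F * G + F * vf D G := by
  rw [vf_apply, vf_apply, vf_apply, Finset.sum_mul, Finset.mul_sum, ← Finset.sum_add_distrib]
  refine Finset.sum_congr rfl fun t _ => ?_
  rw [Derivation.leibniz, smul_eq_mul, smul_eq_mul]
  ring

theorem vf_X (D : Fin n → MvPolynomial (Fin n) K) (s : Fin n) : vf D (X s) = D s := by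
  rw [vf_apply, Finset.sum_eq_single s]
  · rw [pderiv_X_self, mul_one]
  · intro t _ ht
    rw [pderiv_X_of_ne (Ne.symm ht), mul_zero]
  · intro h
    exact absurd (Finset.mem_univ s) h

section

variable {D : Fin n → MvPolynomial (Fin n) K} (hD : ∀ t, constantCoeff (D t) = 0)
include hD

theorem vf_mem {F : MvPolynomial (Fin n) K} (hF : F ∈ wI K 1 k) : vf D F ∈ wI K 1 k := by
  rw [vf_apply]
  refine Ideal.sum_mem _ fun t _ => ?_
  rcases Nat.eq_zero_or_pos k with h | h
  · rw [h]
    exact wI_zero _ _
  · obtain ⟨l, rfl⟩ : ∃ l, k = l + 1 := ⟨k - 1, by omega⟩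
    rw [add_comm l 1]
    exact wI_mul (mem_one_iff.2 (hD t)) (pderiv_mem hF t)

theorem vf_cc (F : MvPolynomial (Fin n) K) : constantCoeff (vf D F) = 0 := by
  rw [vf_apply, map_sum]
  exact Finset.sum_eq_zero fun t _ => by rw [map_mul, hD, zero_mul]

/-- the derivation of the quotient -/
theorem exists_delta : ∃ δ : Module.End K (Tq K n k), (∀ F, δ (qa k F) = qa k (vf D F)) ∧
    ∀ x y, δ (x * y) = δ x * y + x * δ y := by
  obtain ⟨δ, hδ⟩ := exists_lift (k := k) ((qa k).toLinearMap.comp (vf D)) (fun F hF => by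
    have h1 : qa k (vf D F) = qa k 0 := by
      rw [qa_eq, sub_zero]
      exact vf_mem hD hF
    rw [LinearMap.comp_apply, AlgHom.toLinearMap_apply, h1, map_zero])
  refine ⟨δ, hδ, fun x y => ?_⟩
  obtain ⟨F, rfl⟩ := qa_surj x
  obtain ⟨G, rfl⟩ := qa_surj y
  rw [← map_mul, hδ, hδ, hδ, LinearMap.comp_apply, LinearMap.comp_apply, LinearMap.comp_apply,
    vf_mul, AlgHom.toLinearMap_apply, AlgHom.toLinearMap_apply, AlgHom.toLinearMap_apply, map_add,
    map_mul, map_mul]

end

/-- the linear part -/
noncomputable def lin : MvPolynomial (Fin n) K →ₗ[K] (Fin n → K) where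
  toFun F s := constantCoeff (pderiv s F)
  map_add' F G := by
    funext s
    rw [map_add, map_add, Pi.add_apply]
  map_smul' c F := by
    funext s
    rw [RingHom.id_apply, Derivation.map_smul, smul_eq_C_mul, map_mul, constantCoeff_C,
      Pi.smul_apply, smul_eq_mul]

theorem lin_apply (F : MvPolynomial (Fin n) K) (s : Fin n) :
    lin F s = constantCoeff (pderiv s F) := rfl

/-- the linear part of the vector field -/
noncomputable def lT (D : Fin n → MvPolynomial (Fin n) K) : Module.End K (Fin n → K) :=
  Matrix.toLin' (Matrix.of fun s t => constantCoeff (pderiv s (D t)))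

theorem lin_vf {D : Fin n → MvPolynomial (Fin n) K} (hD : ∀ t, constantCoeff (D t) = 0)
    (F : MvPolynomial (Fin n) K) : lin (vf D F) = lT D (lin F) := by
  funext s
  unfold lT
  rw [Matrix.toLin'_apply, lin_apply, vf_apply, map_sum, map_sum]
  unfold Matrix.mulVec dotProduct
  refine Finset.sum_congr rfl fun t _ => ?_
  change _ = constantCoeff (pderiv s (D t)) * lin F t
  rw [Derivation.leibniz, smul_eq_mul, smul_eq_mul, map_add, map_mul, map_mul, hD, zero_mul,
    zero_add, lin_apply, mul_comm]

theorem trace_lT (D : Fin n → MvPolynomial (Fin n) K) :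
    LinearMap.trace K _ (lT D) = ∑ t, constantCoeff (pderiv t (D t)) := by
  unfold lT
  rw [Matrix.trace_toLin'_eq]
  rfl

/-- intertwining maps and polynomials -/
theorem aeval_comm {V W : Type} [AddCommGroup V] [Module K V] [AddCommGroup W] [Module K W]
    (f : V →ₗ[K] W) (S : Module.End K V) (T : Module.End K W) (h : ∀ x, f (S x) = T (f x))
    (P : Polynomial K) (x : V) : f (Polynomial.aeval S P x) = Polynomial.aeval T P (f x) := by
  have hpow : ∀ (m : ℕ) (x : V), f ((S ^ m) x) = (T ^ m) (f x) := by
    intro m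
    induction m with
    | zero => exact fun _ => rfl
    | succ m ih =>
      intro x
      rw [pow_succ, pow_succ, Module.End.mul_apply, Module.End.mul_apply, ih, h]
  induction P using Polynomial.induction_on' with
  | add p q hp hq =>
    rw [map_add, map_add, LinearMap.add_apply, LinearMap.add_apply, map_add, hp, hq]
  | monomial m a =>
    rw [Polynomial.aeval_monomial, Polynomial.aeval_monomial, Module.End.mul_apply,
      Module.End.mul_apply, Module.algebraMap_end_apply, Module.algebraMap_end_apply, map_smul,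
      hpow]

end Pool.Agent.H940.S
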