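import Pool.Agent.H940.S.Eul
import Pool.Agent.H940.S.Quot
import Pool.Agent.H940.R.Local

set_option autoImplicit false
set_option linter.unusedSectionVars false
set_option linter.unusedVariables false

/-! # Euler relations and Jacobian ideals of weighted homogeneous germs -/

namespace Pool.Agent.H940.S

open MvPolynomial Pool.Agent.H940.R
open Pool.Agent.Q57.MD (ZN exists_trunc aeval_cong aeval_coe mem_ZN_coe coe_sub' mul_cong)

variable {K : Type} [Field K] {n : ℕ}

theorem eul_cong {h g : MvPolynomial (Fin n) K} {k : ℕ} {τ : K} (H : Eul h k τ)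
    (hg : g - h ∈ wI K 1 k) : Eul g k τ := by
  obtain ⟨u, D, hu, hD, hr, htr⟩ := H
  refine ⟨u, D, hu, hD, ?_, htr⟩
  have e : u * g - ∑ t, D t * pderiv t g = (u * h - ∑ t, D t * pderiv t h) +
      (u * (g - h) - vf D (g - h)) := by
    rw [vf_apply]
    have h1 : ∑ t, D t * pderiv t (g - h) = ∑ t, D t * pderiv t g - ∑ t, D t * pderiv t h := by
      rw [← Finset.sum_sub_distrib]
      exact Finset.sum_congr rfl fun t _ => by rw [map_sub, mul_sub]
    rw [h1]
    ring
  rw [e]
  exact Ideal.add_mem _ hr (Ideal.sub_mem _ (Ideal.mul_mem_left _ _ hg) (vf_mem hD hg))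

/-- multiplication by a unit -/
theorem eul_unit {h : MvPolynomial (Fin n) K} {k : ℕ} {τ : K} (H : Eul h k τ)
    (v : MvPolynomial (Fin n) K) (hv : constantCoeff v ≠ 0) : Eul (v * h) k τ := by
  obtain ⟨u, D, hu, hD, hr, htr⟩ := H
  obtain ⟨v', hv', -⟩ := exists_inv v hv k
  refine ⟨u + v' * vf D v, D, ?_, hD, ?_, htr⟩
  · rw [map_add, map_mul, vf_cc hD, mul_zero, add_zero, hu]
  · have h1 : ∑ t, D t * pderiv t (v * h) = vf D v * h + v * vf D h := vf_mul D v h
    rw [h1]
    have e : (u + v' * vf D v) * (v * h) - (vf D v * h + v * vf D h) =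
        v * (u * h - vf D h) + (v * v' - 1) * (vf D v * h) := by ring
    rw [e]
    exact Ideal.add_mem _ (Ideal.mul_mem_left _ _ hr) (Ideal.mul_mem_right _ _ hv')

/-- the Jacobian ideal after multiplication by a unit -/
theorem jac_unit {h : MvPolynomial (Fin n) K} {k : ℕ} {τ : K} (H : Eul h k τ)
    (v : MvPolynomial (Fin n) K) (hv : constantCoeff v ≠ 0) :
    Jac h ≤ Jac (v * h) ⊔ wI K 1 k := by
  classical
  obtain ⟨u, D, hu, hD, hr, htr⟩ := H
  obtain ⟨u', hu', -⟩ := exists_inv u (by rw [hu]; exact one_ne_zero) k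
  set A : Matrix (Fin n) (Fin n) (MvPolynomial (Fin n) K) :=
    Matrix.of fun s t => (if s = t then v else 0) + pderiv s v * u' * D t with hA
  have h1 : ∀ s, ∑ t, A s t * pderiv t h - pderiv s (v * h) ∈ wI K 1 k := by
    intro s
    have h2 : ∑ t, A s t * pderiv t h = v * pderiv s h + pderiv s v * u' * vf D h := by
      have h3 : ∀ t, A s t * pderiv t h = (if s = t then v * pderiv t h else 0) +
          pderiv s v * u' * (D t * pderiv t h) := by
        intro t
        rw [hA, Matrix.of_apply]
        split_ifs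
        · ring
        · ring
      rw [Finset.sum_congr rfl fun t _ => h3 t, Finset.sum_add_distrib, ← Finset.mul_sum,
        Finset.sum_ite_eq, if_pos (Finset.mem_univ s), vf_apply]
    rw [h2, Derivation.leibniz, smul_eq_mul, smul_eq_mul]
    have e : v * pderiv s h + pderiv s v * u' * vf D h - (v * pderiv s h + h * pderiv s v) =
        pderiv s v * ((u * u' - 1) * h - u' * (u * h - vf D h)) := by ring
    rw [e]
    exact Ideal.mul_mem_left _ _ (Ideal.sub_mem _ (Ideal.mul_mem_right _ _ hu')
      (Ideal.mul_mem_left _ _ hr))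
  have hdet : constantCoeff A.det ≠ 0 := by
    have h2 : (constantCoeff : MvPolynomial (Fin n) K →+* K).mapMatrix A =
        (constantCoeff v) • (1 : Matrix (Fin n) (Fin n) K) := by
      ext s t
      rw [RingHom.mapMatrix_apply, Matrix.map_apply, hA, Matrix.of_apply, map_add, map_mul, hD,
        mul_zero, add_zero, Matrix.smul_apply, Matrix.one_apply]
      split_ifs
      · rw [smul_eq_mul, mul_one]
      · rw [map_zero, smul_zero]
    rw [RingHom.map_det, h2, Matrix.det_smul, Matrix.det_one, mul_one]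
    exact pow_ne_zero _ hv
  obtain ⟨e, he, -⟩ := exists_inv A.det hdet k
  unfold Jac
  rw [Ideal.span_le]
  rintro _ ⟨r, rfl⟩
  rw [SetLike.mem_coe]
  dsimp only
  -- the inverse matrix
  have h2 : A.det * pderiv r h = ∑ s, A.adjugate r s * ∑ t, A s t * pderiv t h := by
    have h3 : ∀ s, A.adjugate r s * ∑ t, A s t * pderiv t h =
        ∑ t, A.adjugate r s * A s t * pderiv t h := by
      intro s
      rw [Finset.mul_sum]
      exact Finset.sum_congr rfl fun t _ => by ring
    rw [Finset.sum_congr rfl fun s _ => h3 s, Finset.sum_comm]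
    have h4 : ∀ t, ∑ s, A.adjugate r s * A s t * pderiv t h =
        if r = t then A.det * pderiv t h else 0 := by
      intro t
      rw [← Finset.sum_mul]
      have h5 : ∑ s, A.adjugate r s * A s t = (A.adjugate * A) r t := rfl
      rw [h5, Matrix.adjugate_mul, Matrix.smul_apply, Matrix.one_apply]
      split_ifs
      · rw [smul_eq_mul, mul_one]
      · rw [smul_zero, zero_mul]
    rw [Finset.sum_congr rfl fun t _ => h4 t, Finset.sum_ite_eq, if_pos (Finset.mem_univ r)]
  have h3 : pderiv r h = e * (∑ s, A.adjugate r s * pderiv s (v * h)) +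
      (e * (∑ s, A.adjugate r s * (∑ t, A s t * pderiv t h - pderiv s (v * h))) -
        (A.det * e - 1) * pderiv r h) := by
    have h4 : ∑ s, A.adjugate r s * (∑ t, A s t * pderiv t h - pderiv s (v * h)) =
        A.det * pderiv r h - ∑ s, A.adjugate r s * pderiv s (v * h) := by
      rw [h2, ← Finset.sum_sub_distrib]
      exact Finset.sum_congr rfl fun s _ => by rw [mul_sub]
    rw [h4]
    ring
  rw [h3]
  refine Submodule.add_mem_sup (Ideal.mul_mem_left _ _ (Ideal.sum_mem _ fun s _ =>
    Ideal.mul_mem_left _ _ (Ideal.subset_span ⟨s, rfl⟩)))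
    (Ideal.sub_mem _ (Ideal.mul_mem_left _ _ (Ideal.sum_mem _ fun s _ =>
      Ideal.mul_mem_left _ _ (h1 s))) (Ideal.mul_mem_right _ _ he))

/-- monomials of high degree -/
theorem exists_wI {J : Ideal (MvPolynomial (Fin n) K)}
    (h : ∀ i, ∃ m : ℕ, (X i : MvPolynomial (Fin n) K) ^ m ∈ J) : ∃ M : ℕ, 1 ≤ M ∧ wI K 1 M ≤ J := by
  classical
  choose m hm using h
  refine ⟨∑ i, m i + 1, Nat.le_add_left _ _, fun F hF => ?_⟩
  rw [F.as_sum]
  refine Ideal.sum_mem _ fun d hd => ?_
  have h1 : ∑ i, m i + 1 ≤ ∑ i, d i := by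
    by_contra hc
    refine (mem_support_iff.1 hd) (hF d ?_)
    rw [weight_one]
    omega
  obtain ⟨i, hi⟩ : ∃ i, m i ≤ d i := by
    by_contra hc
    push Not at hc
    have := Finset.sum_le_sum fun i (_ : i ∈ Finset.univ) => (hc i).le
    omega
  have h2 : monomial d (coeff d F) = monomial (d - Finsupp.single i (m i)) (coeff d F) *
      (X i : MvPolynomial (Fin n) K) ^ m i := by
    rw [X_pow_eq_monomial, monomial_mul, mul_one, tsub_add_cancel_of_le]
    rwa [Finsupp.single_le_iff]
  rw [h2]
  exact Ideal.mul_mem_left _ _ (hm i)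

section

variable [CharZero K] {h g : MvPolynomial (Fin n) K} {w : Fin n → ℕ} {N : ℕ}
  {η : Fin n → MvPowerSeries (Fin n) K} (H : WHK h g w N η)
include H

/-- truncated coordinates -/
theorem exists_cong (k : ℕ) (hk : 2 ≤ k) : ∃ (a : Fin n → MvPolynomial (Fin n) K)
    (v : MvPolynomial (Fin n) K), (∀ t, constantCoeff (a t) = 0) ∧ (jk a).det ≠ 0 ∧
      constantCoeff v ≠ 0 ∧ h - v * aeval a g ∈ wI K 1 k := by
  classical
  obtain ⟨V, hV, hh⟩ := exists_unit H
  choose a ha using fun t => exists_trunc (η t) k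
  obtain ⟨v, hv⟩ := exists_trunc V k
  refine ⟨a, v, fun t => ?_, ?_, ?_, ?_⟩
  · rw [constantCoeff_eq, ha t 0 (by rw [map_zero]; exact Nat.zero_le _)]
    rw [MvPowerSeries.coeff_zero_eq_constantCoeff_apply]
    exact H.cc t
  · have h1 : jk a = (Matrix.of fun u t => MvPowerSeries.coeff (Finsupp.single u 1) (η t)).transpose := by
      ext1 t s
      unfold jk
      rw [Matrix.of_apply, Matrix.transpose_apply, Matrix.of_apply, constantCoeff_eq, coeff_pderiv,
        zero_add, ha t _ (by rw [Finsupp.degree_single]; omega)]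
      simp
    rw [h1, Matrix.det_transpose]
    exact H.det
  · rw [constantCoeff_eq, hv 0 (by rw [map_zero]; exact Nat.zero_le _),
      MvPowerSeries.coeff_zero_eq_constantCoeff_apply]
    exact hV
  · rw [← mem_ZN_iff, coe_sub', MvPolynomial.coe_mul, hh]
    refine mul_cong _ ?_ ?_
    · intro m hm
      rw [map_sub, MvPolynomial.coeff_coe, hv m (by omega), sub_self]
    · rw [← aeval_coe]
      refine aeval_cong _ _ _ (fun t => ?_) _
      intro m hm
      rw [map_sub, MvPolynomial.coeff_coe, ha t m (by omega), sub_self]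

theorem eul_g (hn : 0 < n) (k : ℕ) : Eul g k (((∑ i, w i : ℕ) : K) / N) := by
  classical
  have hN : (N : K) ≠ 0 := by
    have := H.npos hn
    exact_mod_cast this.ne'
  refine ⟨1, fun t => C ((w t : K) / N) * X t, map_one _, fun t => ?_, ?_, ?_⟩
  · rw [map_mul, constantCoeff_X, mul_zero]
  · have h1 : ∑ t, C ((w t : K) / N) * X t * pderiv t g = g := by
      ext d
      rw [coeff_sum]
      have h2 : ∀ t, coeff d (C ((w t : K) / N) * X t * pderiv t g) =
          (w t : K) / N * ((d t : K) * coeff d g) := by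
        intro t
        rw [mul_assoc, coeff_C_mul]
        congr 1
        rw [mul_comm, coeff_mul_X']
        by_cases ht : d t = 0
        · rw [if_neg (by rw [Finsupp.mem_support_iff, not_not]; exact ht), ht, Nat.cast_zero,
            zero_mul]
        · rw [if_pos (Finsupp.mem_support_iff.2 ht), coeff_pderiv, tsub_add_cancel_of_le (by
            rw [Finsupp.single_le_iff]; omega)]
          have h3 : ((d - Finsupp.single t 1 : Fin n →₀ ℕ) t : K) + 1 = (d t : K) := by
            rw [Finsupp.tsub_apply, Finsupp.single_eq_same]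
            have h4 : ((d t - 1 : ℕ) : K) + 1 = ((d t - 1 + 1 : ℕ) : K) := by push_cast; rfl
            rw [h4, Nat.sub_add_cancel (by omega)]
          rw [h3]
          ring
      rw [Finset.sum_congr rfl fun t _ => h2 t]
      by_cases hd : coeff d g = 0
      · rw [hd]
        simp
      · have h3 := H.hom hd
        rw [Finsupp.weight_apply, Finsupp.sum_fintype _ _ (by simp)] at h3
        have h4 : ∑ t, (w t : K) / N * ((d t : K) * coeff d g) =
            ((∑ t, d t • w t : ℕ) : K) / N * coeff d g := by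
          push_cast
          rw [Finset.sum_div, Finset.sum_mul]
          refine Finset.sum_congr rfl fun t _ => ?_
          rw [smul_eq_mul]
          push_cast
          ring
        rw [h4, h3, div_self hN, one_mul]
    rw [one_mul, h1, sub_self]
    exact Ideal.zero_mem _
  · have h1 : ∀ t, constantCoeff (pderiv t (C ((w t : K) / N) * X t)) = (w t : K) / N := by
      intro t
      rw [pderiv_C_mul, pderiv_X_self, mul_one, constantCoeff_C]
    rw [Finset.sum_congr rfl fun t _ => h1 t, ← Finset.sum_div]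
    push_cast
    rfl

/-- **The Euler relation.** -/
theorem whk_eul (hn : 0 < n) (k : ℕ) (hk : 2 ≤ k) : Eul h k (((∑ i, w i : ℕ) : K) / N) := by
  obtain ⟨a, v, ha, hdet, hv, hh⟩ := exists_cong H k hk
  exact eul_cong (eul_unit (eul_coord a ha hdet (eul_g H hn k)) v hv) hh

/-- **The Jacobian ideal.** -/
theorem whk_jac (hn : 0 < n) : ∃ M : ℕ, 1 ≤ M ∧ ∀ k, 2 ≤ k → wI K 1 M ≤ Jac h ⊔ wI K 1 k := by
  obtain ⟨M, hM, hJ⟩ := exists_wI (J := Jac g) H.crit
  refine ⟨M, hM, fun k hk => ?_⟩
  obtain ⟨a, v, ha, hdet, hv, hh⟩ := exists_cong H (k + 1) (by omega)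
  have h0 : wI K 1 M ≤ Jac g ⊔ wI K 1 (k + 1) := le_trans hJ le_sup_left
  have h1 : wI K 1 M ≤ Jac (aeval a g) ⊔ wI K 1 (k + 1) :=
    iso_coord (show 2 ≤ k + 1 by omega) a ha hdet h0
  have h2 : Jac (aeval a g) ≤ Jac (v * aeval a g) ⊔ wI K 1 (k + 1) :=
    jac_unit (eul_coord a ha hdet (eul_g H hn (k + 1))) v hv
  have h3 : wI K 1 M ≤ Jac (v * aeval a g) ⊔ wI K 1 (k + 1) :=
    le_trans h1 (sup_le h2 le_sup_right)
  have h4 : v * aeval a g - h ∈ wI K 1 (k + 1) := by
    have h5 := (Ideal.neg_mem_iff _).2 hh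
    rwa [neg_sub] at h5
  have h5 := iso_cong (show 1 ≤ k + 1 by omega) h4 h3
  rw [Nat.add_sub_cancel] at h5
  exact h5

end

end Pool.Agent.H940.S
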