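import Pool.Agent.H940.S.Germ
import Pool.Agent.H940.S.Cplx
import Pool.Agent.H940.S.Desc
import Pool.Agent.H940.R.Final

set_option autoImplicit false
set_option linter.unusedSectionVars false
set_option linter.unusedVariables false
set_option maxHeartbeats 1000000

/-! # The p-adic zeta functions of the forms with locally weighted homogeneous singularities,
with a condition over the complex numbers only -/

namespace Pool.Agent.H940.S

open MeasureTheory MvPolynomial Topology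
open Pool.Agent.H940.R
open Pool.Agent.W427.SMC Pool.Agent.Y230.PS Pool.Agent.Q57.QP
open Pool.Agent.Y230.PT hiding CO
open Pool.Agent.Q66.QP
open Pool.Agent.Y229 (SF)
open Pool.Agent.Q57.MC (sf_forced)
open Pool.Agent.H940.G (Sg pt_ne pos_of_sg cc_germ cc_pd_germ)
open scoped ENNReal

attribute [local instance] msK bsK msZ bsZ

variable {n : ℕ} {p : ℕ} [Fact p.Prime]

/-- **The germs over `ℚ_p` which are weighted homogeneous over the complex numbers.** -/
theorem lp_sing (φ : ℚ_[p] →+* ℂ) {h : MvPolynomial (Fin n) ℚ_[p]} (hn : 0 < n)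
    (h0 : constantCoeff (map φ h) = 0) (h1 : ∀ t, constantCoeff (pderiv t (map φ h)) = 0)
    {g : MvPolynomial (Fin n) ℂ} {w : Fin n → ℕ} {N : ℕ} {η : Fin n → MvPowerSeries (Fin n) ℂ}
    (H : WHK (map φ h) g w N η) :
    ∃ (w' : Fin n → ℕ) (N' : ℕ), (∀ i, 0 < w' i) ∧ 0 < N' ∧
      ((∑ i, w' i : ℕ) : ℚ) / N' = ((∑ i, w i : ℕ) : ℚ) / N ∧
      ∀ m : ℂ → ℕ∞, (∀ T0 : ℂ, 1 < ‖T0‖ →
        (if T0 ^ N' = (p : ℂ) ^ (∑ i, w' i) then 1 else 0) + m1 p T0 ≤ m T0) →
      LP m (fun x => ‖eval x h‖) 0 := by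
  classical
  obtain ⟨lam, hlam, hlam1⟩ := exists_lam φ
  obtain ⟨M, hM, hJ⟩ := whk_jac H hn
  have h2 : h ∈ wI ℚ_[p] 1 2 := by
    intro d hd
    rw [weight_degree] at hd
    apply φ.injective
    rw [map_zero, ← coeff_map]
    by_cases hd0 : d = 0
    · rw [hd0]
      exact h0
    · obtain ⟨i, hi⟩ := Finsupp.ne_iff.1 hd0
      have h3 : d = Finsupp.single i 1 := by
        have h4 : d.degree = ∑ j, d j := Finsupp.degree_eq_sum d
        ext j
        by_cases hj : j = i
        · subst hj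
          rw [Finsupp.single_eq_same]
          have := Finset.single_le_sum (f := fun j => d j) (fun _ _ => Nat.zero_le _)
            (Finset.mem_univ j)
          rw [Finsupp.coe_zero, Pi.zero_apply] at hi
          omega
        · rw [Finsupp.single_eq_of_ne hj]
          have h5 : d j + d i ≤ ∑ l, d l := by
            rw [← Finset.sum_pair hj]
            exact Finset.sum_le_sum_of_subset (Finset.subset_univ _)
          rw [Finsupp.coe_zero, Pi.zero_apply] at hi
          omega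
      rw [h3, ← cc_pd]
      exact h1 i
  have hE : ∀ k, 2 ≤ k → Eul h k (((((∑ i, w i : ℕ) : ℚ) / N : ℚ)) : ℚ_[p]) := by
    intro k hk
    refine eul_desc (φ := φ) hlam hlam1 ?_
    have h3 := whk_eul H hn k hk
    have h4 : (((((∑ i, w i : ℕ) : ℚ) / N : ℚ)) : ℂ) = ((∑ i, w i : ℕ) : ℂ) / N := by
      push_cast
      rfl
    rw [h4]
    exact h3
  obtain ⟨w', N', hw', hN', hτ, hL⟩ := lp_eul h hn h2 M hM
    (fun k hk => jac_desc (φ := φ) hlam hlam1 (hJ k hk)) _ hE
  refine ⟨w', N', hw', hN', ?_, hL⟩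
  have hN0 : (N' : ℚ) ≠ 0 := by exact_mod_cast hN'.ne'
  rw [hτ, mul_div_assoc, mul_div_cancel₀ _ hN0]

theorem germ_eq (i : Fin (n + 1)) (q : Fin n → ℂ) (f : MvPolynomial (Fin (n + 1)) ℂ) :
    germ i q f = Pool.Agent.H940.G.germAt i q f := rfl

section

variable {f : MvPolynomial (Fin (n + 1)) ℂ} {d : ℕ} (hd : 2 ≤ d) (hf : f.IsHomogeneous d)
  (hf0 : f ≠ 0)
include hd hf hf0

theorem cc_germ' (i : Fin (n + 1)) (q : Fin n → ℂ) (h : Sg f (Pool.Agent.H940.G.pt (i, q))) :
    constantCoeff (germ i q f) = 0 := by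
  have h1 := cc_germ hd hf hf0 h
  rw [germ_eq]
  exact h1

theorem cc_pd_germ' (i : Fin (n + 1)) (q : Fin n → ℂ) (h : Sg f (Pool.Agent.H940.G.pt (i, q)))
    (t : Fin n) : constantCoeff (pderiv t (germ i q f)) = 0 := by
  have h1 := cc_pd_germ hd hf hf0 h t
  rw [germ_eq]
  exact h1

/-- the root of a singular point -/
theorem sf_wgt' (i : Fin (n + 1)) (q : Fin n → ℂ) (h : Sg f (Pool.Agent.H940.G.pt (i, q)))
    {g : MvPolynomial (Fin n) ℂ} {w : Fin n → ℕ} {N : ℕ} {η : Fin n → MvPowerSeries (Fin n) ℂ}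
    (hW : WHK (germ i q f) g w N η) :
    SF (fun _ : Fin 1 => f) 0 (-((∑ i, w i : ℕ) : ℂ) / N) := by
  have hWC := whk_map (RingHom.id ℂ) hW
  rw [map_id, map_id] at hWC
  exact sf_wgt hd hf hf0 h hWC

end

/-- **The germs of a form.** -/
theorem lp_form (φ : ℚ_[p] →+* ℂ) {f : MvPolynomial (Fin (n + 1)) ℂ} {d : ℕ} (hd : 2 ≤ d)
    (hf : f.IsHomogeneous d) (hf0 : f ≠ 0) (HC : LWH f) (i : Fin (n + 1)) (q : Fin n → ℂ)
    (hSg : Sg f (Pool.Agent.H940.G.pt (i, q))) (h : MvPolynomial (Fin n) ℚ_[p])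
    (hmap : map φ h = germ i q f) : ∃ (w' : Fin n → ℕ) (N' : ℕ), 0 < ∑ i, w' i ∧ 0 < N' ∧
      SF (fun _ : Fin 1 => f) 0 (-((∑ i, w' i : ℕ) : ℂ) / N') ∧
      ∀ m : ℂ → ℕ∞, (∀ T0 : ℂ, 1 < ‖T0‖ →
        (if T0 ^ N' = (p : ℂ) ^ (∑ i, w' i) then 1 else 0) + m1 p T0 ≤ m T0) →
      LP m (fun x => ‖eval x h‖) 0 := by
  obtain ⟨g, w, N, η, hW⟩ := HC i q hSg
  have hn := pos_of_sg hd hf hf0 (pt_ne _) hSg
  have hroot := sf_wgt' hd hf hf0 i q hSg hW
  have hc0 := cc_germ' hd hf hf0 i q hSg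
  have hc1 := cc_pd_germ' hd hf hf0 i q hSg
  rw [← hmap] at hW hc0 hc1
  obtain ⟨w', N', hw', hN', hrat, hL⟩ := lp_sing φ hn hc0 hc1 hW
  refine ⟨w', N', Finset.sum_pos (fun i _ => hw' i) ⟨⟨0, hn⟩, Finset.mem_univ _⟩, hN', ?_, hL⟩
  have hrat' : -((∑ i, w' i : ℕ) : ℂ) / N' = -((∑ i, w i : ℕ) : ℂ) / N := by
    have h5 := congrArg (fun x : ℚ => (x : ℂ)) hrat
    push_cast at h5
    rw [neg_div, neg_div]
    push_cast
    rw [h5]
  rw [hrat']
  exact hroot

/-- **The integrals near all points.** -/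
theorem lh_LP (f : MvPolynomial (Fin (n + 1)) ℚ) (d : ℕ) (hd : 2 ≤ d) (hf : f.IsHomogeneous d)
    (hf0 : f ≠ 0) (HC : LWH (map (algebraMap ℚ ℂ) f)) (P : Fin (n + 1) → ℚ_[p]) :
    LP (mF p (map (algebraMap ℚ ℂ) f)) (fun x => ‖eval x (map (algebraMap ℚ ℚ_[p]) f)‖) P := by
  classical
  obtain ⟨φ⟩ := exists_emb p
  set F := map (algebraMap ℚ ℂ) f with hF
  set fp := map (algebraMap ℚ ℚ_[p]) f with hfp
  have hφ : map φ fp = F := map_C_eq φ f
  have hFh : F.IsHomogeneous d := hf.map _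
  have hfh : fp.IsHomogeneous d := hf.map _
  have hF0 : F ≠ 0 := fun h => hf0 ((map_eq_zero_iff _
    (map_injective _ (algebraMap ℚ ℂ).injective)).1 h)
  have hm1 : ∀ T : ℂ, m1 p T ≤ mF p F T := by
    intro T
    unfold m1
    split_ifs with h
    · rw [mF_top]
      · exact le_top
      · rw [h, rr_self]
        have := sf_one hd hFh hF0
        simpa using this
    · exact bot_le
  have hne : ∀ P : Fin (n + 1) → ℚ_[p], P ≠ 0 → LP (mF p F) (fun x => ‖eval x fp‖) P := by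
    intro P hP
    by_cases hs : eval P fp ≠ 0 ∨ ∃ i, eval P (pderiv i fp) ≠ 0
    · exact lp_mono (fun T _ => hm1 T) (lp_smooth fp P hs)
    · push Not at hs
      obtain ⟨-, hs⟩ := hs
      obtain ⟨i, hi⟩ : ∃ i, P i ≠ 0 := by
        by_contra hcon
        push Not at hcon
        exact hP (funext hcon)
      set q : Fin n → ℚ_[p] := fun t => P (i.succAbove t) / P i with hq
      have hsq : ∀ j, eval (i.insertNth 1 q) (pderiv j fp) = 0 := by
        intro j
        rw [hq, insertNth_div i P hi, eval_hom (pderiv j fp) (d - 1) hfh.pderiv, hs, mul_zero]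
      have hpt : Pool.Agent.H940.G.pt (i, fun t => φ (q t)) =
          fun l => φ ((i.insertNth 1 q : Fin (n + 1) → ℚ_[p]) l) := by
        unfold Pool.Agent.H940.G.pt
        funext l
        refine Fin.succAboveCases i ?_ (fun t => ?_) l
        · rw [Fin.insertNth_apply_same, Fin.insertNth_apply_same, map_one]
        · rw [Fin.insertNth_apply_succAbove, Fin.insertNth_apply_succAbove]
      have hSg : Sg F (Pool.Agent.H940.G.pt (i, fun t => φ (q t))) := by
        intro j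
        rw [hpt, ← hφ, pderiv_map, eval_map_phi, hsq, map_zero]
      have hmap : map φ (germ i q fp) = germ i (fun t => φ (q t)) F := by
        rw [map_germ, hφ]
      obtain ⟨w', N', hwpos, hN', hroot, hL⟩ := lp_form φ hd hFh hF0 HC i _ hSg _ hmap
      refine lp_chart fp d hfh i P hi _ (hL _ fun T hT => ?_)
      by_cases h1 : T ^ N' = (p : ℂ) ^ (∑ i, w' i)
      · rw [mF_top]
        · exact le_top
        · rw [rr_ratio _ _ hwpos hN' T h1]
          exact hroot
      · rw [if_neg h1, zero_add]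
        exact hm1 T
  by_cases hP : P = 0
  swap
  · exact hne P hP
  subst hP
  rcases sf_or_field hd hFh hF0 (lwh_LH HC) with h1 | ⟨η, h1, h2⟩
  · refine lp_vertex fp d (by omega) hfh _ (fun T hT hTd => ?_) hne
    apply mF_top
    rw [rr_ratio _ _ (Nat.succ_pos n) (by omega) T hTd]
    exact h1
  · obtain ⟨A, B, w, hAB, hBA, hw, hgh, hgw⟩ := second_rat f d (by omega) hf η h1 h2
    have hBp : (B.map (algebraMap ℚ ℚ_[p])) * (A.map (algebraMap ℚ ℚ_[p])) = 1 := by
      rw [← Matrix.map_mul, hBA, Matrix.map_one _ (map_zero _) (map_one _)]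
    have hAp : (A.map (algebraMap ℚ ℚ_[p])) * (B.map (algebraMap ℚ ℚ_[p])) = 1 := by
      rw [← Matrix.map_mul, hAB, Matrix.map_one _ (map_zero _) (map_one _)]
    set L : (Fin (n + 1) → ℚ_[p]) ≃L[ℚ_[p]] (Fin (n + 1) → ℚ_[p]) :=
      (Matrix.toLin'OfInv hAp hBp).toContinuousLinearEquiv with hL
    have hLa : ∀ x, L x = (B.map (algebraMap ℚ ℚ_[p])).mulVec x := by
      intro x
      rfl
    refine lp_second fp (map (algebraMap ℚ ℚ_[p]) (LK.sb B f)) d (by omega) (hgh.map _) L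
      (fun x => ?_) w hw (fun α hα => hgw α (support_map_subset _ _ hα)) _ hne
    congr 1
    rw [hLa, hfp, eval_map, eval_map]
    unfold LK.sb
    rw [← coe_eval₂Hom, ← coe_eval₂Hom]
    have h3 : ((eval₂Hom (algebraMap ℚ ℚ_[p]) x).comp
        (aeval fun i => LK.lf (B i) : MvPolynomial (Fin (n + 1)) ℚ →ₐ[ℚ] _).toRingHom) =
        eval₂Hom (algebraMap ℚ ℚ_[p]) ((B.map (algebraMap ℚ ℚ_[p])).mulVec x) := by
      apply MvPolynomial.ringHom_ext
      · intro a
        simp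
      · intro i
        rw [RingHom.comp_apply, eval₂Hom_X']
        simp only [AlgHom.toRingHom_eq_coe, RingHom.coe_coe, aeval_X]
        rw [LK.lf_apply, map_sum]
        unfold Matrix.mulVec dotProduct
        refine Finset.sum_congr rfl fun j _ => ?_
        rw [map_mul, eval₂Hom_C, eval₂Hom_X']
        simp only [Matrix.map_apply]
    exact RingHom.congr_fun h3 f

/-- **The real parts of the poles are roots.** -/
theorem lh_ZR (f : MvPolynomial (Fin (n + 1)) ℚ) (d : ℕ) (hd : 2 ≤ d) (hf : f.IsHomogeneous d)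
    (hf0 : f ≠ 0) (HC : LWH (map (algebraMap ℚ ℂ) f)) :
    Pool.Agent.T6.H26.ZR p false (hyp f) := by
  classical
  refine ⟨⟨(0 : Fin 1), hf0⟩, ?_⟩
  simp only [Bool.false_eq_true, if_false]
  have h1 := st_ff p (FamQ.toP p (hyp f)) (mR p (hyp f)) (fun P => ?_) (fun _ => 1)
    (fun _ => one_ne_zero)
  · rw [scl_one] at h1
    exact h1
  · have h2 := lh_LP f d hd hf hf0 HC P
    have h3 : nrm (FamQ.toP p (hyp f)) = fun x => ‖eval x (map (algebraMap ℚ ℚ_[p]) f)‖ := by
      funext x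
      unfold nrm
      have h4 : (fun j => eval x (FamQ.toP p (hyp f) j)) =
          fun _ : Fin 1 => eval x (map (algebraMap ℚ ℚ_[p]) f) := rfl
      rw [h4, pi_norm_const]
    rw [h3]
    refine lp_mono (fun T _ => ?_) h2
    unfold mF
    split_ifs with h5
    · rw [mR_top (sf_forced h5)]
    · exact bot_le

end Pool.Agent.H940.S
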