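import Mathlib

set_option autoImplicit false
set_option linter.unusedSectionVars false
set_option linter.unusedVariables false

/-! # Averages of a derivation of a finite dimensional algebra -/

namespace Pool.Agent.H940.S

open Module TensorProduct

/-- the averages of the conjugates -/
structure Av (K L : Type) [Field K] [Field L] [Algebra K L] where
  /-- the additive map -/
  c : L →+ ℚ
  /-- the rational numbers are fixed -/
  rat : ∀ r : ℚ, c (r : L) = r
  /-- conjugates have the same value -/
  conj : ∀ a b : L, minpoly K a = minpoly K b → c a = c b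

theorem trace_two {L M : Type} [Field L] [CharZero L] [IsAlgClosed L] [AddCommGroup M]
    [Module L M] [FiniteDimensional L M] (f g : Module.End L M) (c : L →+ ℚ)
    (hc : ∀ r : ℚ, c (r : L) = r) (τ : ℚ) (hf : LinearMap.trace L M f = (τ : L))
    (hg : ∀ a, ∀ x ∈ f.maxGenEigenspace a, g x = ((c a : ℚ) : L) • x) :
    LinearMap.trace L M g = (τ : L) := by
  classical
  have hds := DirectSum.isInternal_submodule_of_iSupIndep_of_iSup_eq_top
    f.independent_maxGenEigenspace (Module.End.iSup_maxGenEigenspace_eq_top f)
  have h_fin : {μ | f.maxGenEigenspace μ ≠ ⊥}.Finite :=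
    WellFoundedGT.finite_ne_bot_of_iSupIndep f.independent_maxGenEigenspace
  have hff := f.mapsTo_maxGenEigenspace_of_comm (Commute.refl f)
  have hgg : ∀ μ, Set.MapsTo g (f.maxGenEigenspace μ) (f.maxGenEigenspace μ) := by
    intro μ x hx
    rw [hg μ x hx]
    exact Submodule.smul_mem _ _ hx
  have h1 := LinearMap.trace_eq_sum_trace_restrict' hds h_fin hff
  have h2 := LinearMap.trace_eq_sum_trace_restrict' hds h_fin hgg
  have h3 : ∀ μ, LinearMap.trace L _ (f.restrict (hff μ)) =
      μ * (Module.finrank L (f.maxGenEigenspace μ) : L) := by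
    intro μ
    have hn : IsNilpotent ((f.restrict (hff μ) : Module.End L (f.maxGenEigenspace μ)) -
        algebraMap L (Module.End L (f.maxGenEigenspace μ)) μ) :=
      f.isNilpotent_restrict_maxGenEigenspace_sub_algebraMap μ
    have := LinearMap.trace_comp_eq_mul_of_commute_of_isNilpotent (f := 1) μ
      (Commute.one_left _) hn
    rw [LinearMap.trace_one] at this
    exact this
  have h4 : ∀ μ, LinearMap.trace L _ (g.restrict (hgg μ)) =
      ((c μ : ℚ) : L) * (Module.finrank L (f.maxGenEigenspace μ) : L) := by
    intro μ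
    have : (g.restrict (hgg μ) : Module.End L (f.maxGenEigenspace μ)) =
        ((c μ : ℚ) : L) • (1 : Module.End L (f.maxGenEigenspace μ)) := by
      refine LinearMap.ext fun x => Subtype.ext ?_
      exact hg μ x.1 x.2
    rw [this, map_smul, LinearMap.trace_one, smul_eq_mul]
  rw [Finset.sum_congr rfl fun μ _ => h3 μ, hf] at h1
  rw [Finset.sum_congr rfl fun μ _ => h4 μ] at h2
  have h7 := congrArg c h1
  rw [hc, map_sum] at h7
  have h8 : ∀ μ, c (μ * (Module.finrank L (f.maxGenEigenspace μ) : L)) =
      c μ * (Module.finrank L (f.maxGenEigenspace μ) : ℚ) := by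
    intro μ
    rw [mul_comm, ← nsmul_eq_mul, map_nsmul, nsmul_eq_mul, mul_comm]
  rw [Finset.sum_congr rfl fun μ _ => h8 μ] at h7
  rw [h2, h7]
  push_cast
  rfl

theorem exists_av (K : Type) [Field K] [CharZero K] : Nonempty (Av K (AlgebraicClosure K)) := by
  have hint : Algebra.IsIntegral K (AlgebraicClosure K) := by
    have := AlgebraicClosure.isAlgebraic K
    constructor
    intro x
    exact (this.isAlgebraic x).isIntegral
  obtain ⟨ψ, hψ⟩ := (Algebra.linearMap ℚ K).exists_leftInverse_of_injective
    (LinearMap.ker_eq_bot.2 (algebraMap ℚ K).injective)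
  refine ⟨⟨ψ.toAddMonoidHom.comp (Algebra.normalizedTrace K (AlgebraicClosure K)).toAddMonoidHom,
    fun r => ?_, fun a b h => ?_⟩⟩
  · have h1 : ((r : ℚ) : AlgebraicClosure K) = algebraMap K (AlgebraicClosure K) (r : K) := by
      rw [map_ratCast]
    rw [AddMonoidHom.comp_apply, LinearMap.toAddMonoidHom_coe, LinearMap.toAddMonoidHom_coe, h1,
      Algebra.normalizedTrace_algebraMap_apply_eq_self]
    have h2 := LinearMap.congr_fun hψ r
    rw [LinearMap.comp_apply, Algebra.linearMap_apply, LinearMap.id_apply, eq_ratCast] at h2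
    exact h2
  · rw [AddMonoidHom.comp_apply, AddMonoidHom.comp_apply, LinearMap.toAddMonoidHom_coe,
      LinearMap.toAddMonoidHom_coe, Algebra.normalizedTrace_minpoly,
      Algebra.normalizedTrace_minpoly, h]

section

variable {K L : Type} [Field K] [Field L] [Algebra K L] [Algebra.IsIntegral K L] [CharZero L]
  (A : Av K L)

/-- interpolation of the averages by a polynomial over `K` -/
theorem Av.interp (s : Finset L) (e : ℕ) : ∃ P : Polynomial K, ∀ a ∈ s,
    (Polynomial.X - Polynomial.C a) ^ e ∣
      P.map (algebraMap K L) - Polynomial.C ((A.c a : ℚ) : L) := by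
  classical
  set S := s.image fun a => minpoly K a with hS
  have hex : ∀ P : S, ∃ a ∈ s, minpoly K a = P.1 := fun P => Finset.mem_image.1 P.2
  choose B hB1 hB2 using hex
  have hI : Pairwise (Function.onFun IsCoprime fun P : S => Ideal.span {P.1 ^ e}) := by
    intro P Q hPQ
    have ha := minpoly.irreducible (Algebra.IsIntegral.isIntegral (R := K) (B P))
    have hb := minpoly.irreducible (Algebra.IsIntegral.isIntegral (R := K) (B Q))
    have hcop : IsCoprime (minpoly K (B P)) (minpoly K (B Q)) := by
      rw [ha.coprime_iff_not_dvd]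
      intro hdvd
      apply hPQ
      rw [Subtype.ext_iff, ← hB2, ← hB2]
      exact Polynomial.eq_of_monic_of_associated
        (minpoly.monic (Algebra.IsIntegral.isIntegral (R := K) (B P)))
        (minpoly.monic (Algebra.IsIntegral.isIntegral (R := K) (B Q)))
        (ha.associated_of_dvd hb hdvd)
    rw [hB2, hB2] at hcop
    exact (Ideal.isCoprime_span_singleton_iff _ _).2 hcop.pow
  obtain ⟨P, hP⟩ := Ideal.exists_forall_sub_mem_ideal hI fun Q => Polynomial.C ((A.c (B Q) : ℚ) : K)
  refine ⟨P, fun a ha => ?_⟩
  have h1 := hP ⟨minpoly K a, Finset.mem_image_of_mem _ ha⟩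
  obtain ⟨R, hR⟩ := Ideal.mem_span_singleton'.1 h1
  have h2 := congrArg (Polynomial.map (algebraMap K L)) hR
  rw [Polynomial.map_mul, Polynomial.map_pow, Polynomial.map_sub, Polynomial.map_C,
    map_ratCast, A.conj _ _ (hB2 ⟨minpoly K a, Finset.mem_image_of_mem _ ha⟩)] at h2
  rw [← h2]
  refine Dvd.dvd.mul_left (pow_dvd_pow_of_dvd ?_ e) _
  rw [Polynomial.dvd_iff_isRoot, Polynomial.IsRoot, Polynomial.eval_map_algebraMap, minpoly.aeval]

variable {V : Type} [AddCommGroup V] [Module K V]

variable (L) in
/-- the extension of an endomorphism -/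
noncomputable def bce (T : Module.End K V) : Module.End L (L ⊗[K] V) :=
  Module.End.baseChangeHom K L V T

theorem bce_tmul (T : Module.End K V) (a : L) (x : V) : bce L T (a ⊗ₜ[K] x) = a ⊗ₜ[K] T x := rfl

theorem bce_aeval (P : Polynomial K) (T : Module.End K V) :
    bce L (Polynomial.aeval T P) = Polynomial.aeval (bce L T) (P.map (algebraMap K L)) := by
  rw [Polynomial.aeval_map_algebraMap]
  exact (Polynomial.aeval_algHom_apply (Module.End.baseChangeHom K L V) T P).symm

theorem bce_inj : Function.Injective (bce L : Module.End K V → Module.End L (L ⊗[K] V)) :=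
  LinearMap.baseChangeHom_injective K V L

theorem bce_zero : bce L (0 : Module.End K V) = 0 := map_zero (Module.End.baseChangeHom K L V)

theorem tmul_inj : Function.Injective (fun v : V => (1 : L) ⊗ₜ[K] v) :=
  Module.FaithfullyFlat.tensorProduct_mk_injective V

/-- the polynomial `P` averages the eigenvalues of `T` -/
def Av.Good (P : Polynomial K) (T : Module.End K V) : Prop :=
  ∀ (a : L) (x : L ⊗[K] V), x ∈ (bce L T).maxGenEigenspace a →
    (bce L (Polynomial.aeval T P)) x = ((A.c a : ℚ) : L) • x

variable [FiniteDimensional K V]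

theorem Av.good_of (P : Polynomial K) (T : Module.End K V) (s : Finset L) (e : ℕ)
    (hs : ∀ a, (bce L T).maxGenEigenspace a ≠ ⊥ → a ∈ s)
    (he : Module.finrank L (L ⊗[K] V) ≤ e)
    (hP : ∀ a ∈ s, (Polynomial.X - Polynomial.C a) ^ e ∣
      P.map (algebraMap K L) - Polynomial.C ((A.c a : ℚ) : L)) : A.Good P T := by
  intro a x hx
  by_cases ha : a ∈ s
  swap
  · have h1 : (bce L T).maxGenEigenspace a = ⊥ := by
      by_contra hc
      exact ha (hs a hc)
    rw [h1, Submodule.mem_bot] at hx
    rw [hx, map_zero, smul_zero]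
  obtain ⟨Q, hQ⟩ := hP a ha
  have h1 : ((bce L T - algebraMap L _ a) ^ e) x = 0 := by
    rw [Module.End.maxGenEigenspace_eq_genEigenspace_finrank] at hx
    have h2 : (bce L T).genEigenspace a (Module.finrank L (L ⊗[K] V)) ≤
        (bce L T).genEigenspace a e :=
      ((bce L T).genEigenspace a).monotone (by exact_mod_cast he)
    have h3 := h2 hx
    rw [Module.End.mem_genEigenspace_nat, LinearMap.mem_ker] at h3
    rw [Algebra.algebraMap_eq_smul_one]
    exact h3
  rw [bce_aeval]
  have h2 : P.map (algebraMap K L) = Polynomial.C ((A.c a : ℚ) : L) +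
      Q * (Polynomial.X - Polynomial.C a) ^ e := by
    rw [mul_comm Q, ← hQ]
    ring
  rw [h2, map_add, Polynomial.aeval_C, map_mul, map_pow, map_sub, Polynomial.aeval_X,
    Polynomial.aeval_C, LinearMap.add_apply, Module.End.mul_apply, h1, map_zero, add_zero,
    Module.algebraMap_end_apply]

/-- finitely many eigenvalues -/
theorem exists_eig (T : Module.End K V) :
    ∃ s : Finset L, ∀ a, (bce L T).maxGenEigenspace a ≠ ⊥ → a ∈ s := by
  have h := WellFoundedGT.finite_ne_bot_of_iSupIndep
    (bce L T).independent_maxGenEigenspace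
  exact ⟨h.toFinset, fun a ha => by rwa [Set.Finite.mem_toFinset]⟩

theorem Av.exists_good {W : Type} [AddCommGroup W] [Module K W] [FiniteDimensional K W]
    (T : Module.End K V) (T' : Module.End K W) :
    ∃ P : Polynomial K, A.Good P T ∧ A.Good P T' := by
  classical
  obtain ⟨s, hs⟩ := exists_eig (L := L) T
  obtain ⟨s', hs'⟩ := exists_eig (L := L) T'
  set e := max (Module.finrank L (L ⊗[K] V)) (Module.finrank L (L ⊗[K] W)) with he
  obtain ⟨P, hP⟩ := A.interp (s ∪ s') e
  exact ⟨P, A.good_of P T s e hs (le_max_left _ _) fun a ha => hP a (Finset.mem_union_left _ ha),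
    A.good_of P T' s' e hs' (le_max_right _ _) fun a ha => hP a (Finset.mem_union_right _ ha)⟩

variable {A} {P : Polynomial K} {T : Module.End K V} (hG : A.Good P T)
include hG

theorem Av.Good.apply (r : ℚ) (x : V) (hx : T x = (r : K) • x) :
    Polynomial.aeval T P x = (r : K) • x := by
  have h1 : (1 : L) ⊗ₜ[K] x ∈ (bce L T).maxGenEigenspace (r : L) := by
    refine Module.End.eigenspace_le_maxGenEigenspace ?_
    rw [Module.End.mem_eigenspace_iff, bce_tmul, hx, TensorProduct.tmul_smul,
      ← algebraMap_smul L (r : K), map_ratCast]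
  have h2 := hG _ _ h1
  rw [bce_tmul, A.rat, ← map_ratCast (algebraMap K L), algebraMap_smul,
    ← TensorProduct.tmul_smul] at h2
  exact tmul_inj h2

/-- the operator is diagonalizable with rational eigenvalues -/
theorem Av.Good.exists_set [IsAlgClosed L] : ∃ R : Finset ℚ,
    Polynomial.aeval (Polynomial.aeval T P)
      (∏ r ∈ R, (Polynomial.X - Polynomial.C (r : K))) = 0 := by
  classical
  obtain ⟨s, hs⟩ := exists_eig (L := L) T
  refine ⟨s.image A.c, bce_inj (L := L) ?_⟩
  rw [bce_zero, bce_aeval, Polynomial.map_prod]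
  have htop : ∀ x : L ⊗[K] V, x ∈ ⨆ a, (bce L T).maxGenEigenspace a := by
    intro x
    rw [Module.End.iSup_maxGenEigenspace_eq_top]
    exact Submodule.mem_top
  refine LinearMap.ext fun x => ?_
  rw [LinearMap.zero_apply]
  refine Submodule.iSup_induction _ (motive := fun x => _ = 0) (htop x) (fun a x hx => ?_)
    (map_zero _) (fun x y hx hy => by rw [map_add, hx, hy, add_zero])
  by_cases ha : (bce L T).maxGenEigenspace a = ⊥
  · rw [ha, Submodule.mem_bot] at hx
    rw [hx, map_zero]
  · rw [Module.End.aeval_apply_of_mem_apply_eq_smul (hG a x hx), Polynomial.eval_prod,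
      Finset.prod_eq_zero (Finset.mem_image_of_mem _ (hs a ha)), zero_smul]
    rw [Polynomial.map_sub, Polynomial.map_X, Polynomial.map_C, map_ratCast,
      Polynomial.eval_sub, Polynomial.eval_X, Polynomial.eval_C, sub_self]

/-- the trace -/
theorem Av.Good.trace [IsAlgClosed L] (τ : ℚ) (hτ : LinearMap.trace K V T = (τ : K)) :
    LinearMap.trace K V (Polynomial.aeval T P) = (τ : K) := by
  have h5 : LinearMap.trace L _ (bce L T) = ((τ : ℚ) : L) := by
    have : LinearMap.trace L _ (bce L T) = algebraMap K L (LinearMap.trace K V T) :=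
      LinearMap.trace_baseChange T L
    rw [this, hτ, map_ratCast]
  have h6 : LinearMap.trace L _ (bce L (Polynomial.aeval T P)) = algebraMap K L
      (LinearMap.trace K V (Polynomial.aeval T P)) := LinearMap.trace_baseChange _ L
  have h7 := trace_two (bce L T) (bce L (Polynomial.aeval T P)) A.c A.rat τ h5 hG
  apply (algebraMap K L).injective
  rw [← h6, h7, map_ratCast]

end

/-- products of generalized eigenvectors -/
theorem gen_mul {L W : Type} [Field L] [CommRing W] [Algebra L W] (δ : Module.End L W)
    (hδ : ∀ x y, δ (x * y) = δ x * y + x * δ y) (a b : L) : ∀ (j k l : ℕ), k + l = j →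
      ∀ x y : W, ((δ - a • (1 : Module.End L W)) ^ k) x = 0 →
        ((δ - b • (1 : Module.End L W)) ^ l) y = 0 →
        ((δ - (a + b) • (1 : Module.End L W)) ^ j) (x * y) = 0 := by
  intro j
  induction j with
  | zero =>
    intro k l hkl x y hx hy
    have hk : k = 0 := by omega
    subst hk
    rw [pow_zero, Module.End.one_apply] at hx ⊢
    rw [hx, zero_mul]
  | succ j ih =>
    intro k l hkl x y hx hy
    cases k with
    | zero =>
      rw [pow_zero, Module.End.one_apply] at hx
      rw [hx, zero_mul, map_zero]
    | succ k =>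
      cases l with
      | zero =>
        rw [pow_zero, Module.End.one_apply] at hy
        rw [hy, mul_zero, map_zero]
      | succ l =>
        have h1 : (δ - (a + b) • (1 : Module.End L W)) (x * y) =
            (δ - a • (1 : Module.End L W)) x * y + x * (δ - b • (1 : Module.End L W)) y := by
          simp only [LinearMap.sub_apply, LinearMap.smul_apply, Module.End.one_apply, hδ]
          rw [add_smul, sub_mul, mul_sub, smul_mul_assoc, mul_smul_comm]
          ring
        rw [pow_succ, Module.End.mul_apply, h1, map_add]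
        rw [pow_succ, Module.End.mul_apply] at hx hy
        rw [ih k (l + 1) (by omega) _ y hx (by rw [pow_succ, Module.End.mul_apply]; exact hy),
          ih (k + 1) l (by omega) x _ (by rw [pow_succ, Module.End.mul_apply]; exact hx) hy,
          add_zero]

section

variable {K L : Type} [Field K] [Field L] [Algebra K L] [Algebra.IsIntegral K L] [CharZero L]
  {A : Av K L} {V : Type} [CommRing V] [Algebra K V]

theorem bce_leib (δ : Module.End K V) (hδ : ∀ x y, δ (x * y) = δ x * y + x * δ y)
    (x y : L ⊗[K] V) : bce L δ (x * y) = bce L δ x * y + x * bce L δ y := by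
  induction x using TensorProduct.induction_on with
  | zero => simp only [zero_mul, map_zero, add_zero]
  | add x1 x2 h1 h2 => rw [add_mul, map_add, map_add, h1, h2, add_mul, add_mul]; ring
  | tmul a u =>
    induction y using TensorProduct.induction_on with
    | zero => simp only [mul_zero, map_zero, add_zero]
    | add y1 y2 h1 h2 => rw [mul_add, map_add, map_add, h1, h2, mul_add, mul_add]; ring
    | tmul b v =>
      rw [Algebra.TensorProduct.tmul_mul_tmul, bce_tmul, bce_tmul, bce_tmul,
        Algebra.TensorProduct.tmul_mul_tmul, Algebra.TensorProduct.tmul_mul_tmul, hδ,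
        TensorProduct.tmul_add]

/-- **The average of a derivation is a derivation.** -/
theorem Av.Good.leib [FiniteDimensional K V] [IsAlgClosed L] {P : Polynomial K}
    {δ : Module.End K V} (hG : A.Good P δ) (hδ : ∀ x y, δ (x * y) = δ x * y + x * δ y)
    (x y : V) : Polynomial.aeval δ P (x * y) =
      Polynomial.aeval δ P x * y + x * Polynomial.aeval δ P y := by
  classical
  have htop : ∀ x : L ⊗[K] V, x ∈ ⨆ a, (bce L δ).maxGenEigenspace a := by
    intro x
    rw [Module.End.iSup_maxGenEigenspace_eq_top]
    exact Submodule.mem_top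
  set g := bce L (Polynomial.aeval δ P) with hg
  have h1 : ∀ x y : L ⊗[K] V, g (x * y) = g x * y + x * g y := by
    intro x y
    refine Submodule.iSup_induction _ (motive := fun x => g (x * y) = g x * y + x * g y)
      (htop x) (fun a x hx => ?_) (by simp only [zero_mul, map_zero, add_zero])
      (fun x1 x2 h1 h2 => by rw [add_mul, map_add, map_add, h1, h2, add_mul, add_mul]; ring)
    refine Submodule.iSup_induction _ (motive := fun y => g (x * y) = g x * y + x * g y)
      (htop y) (fun b y hy => ?_) (by simp only [mul_zero, map_zero, add_zero])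
      (fun y1 y2 h1 h2 => by rw [mul_add, map_add, map_add, h1, h2, mul_add, mul_add]; ring)
    have hxy : x * y ∈ (bce L δ).maxGenEigenspace (a + b) := by
      rw [Module.End.mem_maxGenEigenspace] at hx hy ⊢
      obtain ⟨k, hk⟩ := hx
      obtain ⟨l, hl⟩ := hy
      exact ⟨k + l, gen_mul (bce L δ) (bce_leib δ hδ) a b _ k l rfl x y hk hl⟩
    rw [hG _ _ hxy, hG _ _ hx, hG _ _ hy, map_add, Rat.cast_add, add_smul, smul_mul_assoc,
      mul_smul_comm]
  have h2 := h1 ((1 : L) ⊗ₜ[K] x) ((1 : L) ⊗ₜ[K] y)
  rw [Algebra.TensorProduct.tmul_mul_tmul, hg, bce_tmul, bce_tmul, bce_tmul,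
    Algebra.TensorProduct.tmul_mul_tmul, Algebra.TensorProduct.tmul_mul_tmul, mul_one,
    ← TensorProduct.tmul_add] at h2
  exact tmul_inj h2

end

/-- decomposition into eigenvectors -/
theorem decomp {K V : Type} [Field K] [AddCommGroup V] [Module K V] (B : Module.End K V)
    [CharZero K] (R : Finset ℚ) : ∀ x : V,
      Polynomial.aeval B (∏ r ∈ R, (Polynomial.X - Polynomial.C (r : K))) x = 0 →
      ∃ v : ℚ → V, (∀ r, B (v r) = (r : K) • v r) ∧ x = ∑ r ∈ R, v r := by
  classical
  induction R using Finset.induction_on with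
  | empty =>
    intro x hx
    rw [Finset.prod_empty, map_one, Module.End.one_apply] at hx
    exact ⟨0, fun r => by rw [Pi.zero_apply, map_zero, smul_zero], by
      rw [hx, Finset.sum_empty]⟩
  | insert a R ha ih =>
    intro x hx
    rw [Finset.prod_insert ha] at hx
    have hcop : IsCoprime (Polynomial.X - Polynomial.C (a : K))
        (∏ r ∈ R, (Polynomial.X - Polynomial.C (r : K))) := by
      refine IsCoprime.prod_right fun c hc => ?_
      have hac : a ≠ c := fun h2 => ha (by rw [h2]; exact hc)
      exact Polynomial.isCoprime_X_sub_C_of_isUnit_sub (sub_ne_zero.2 (by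
        exact_mod_cast hac)).isUnit
    have h1 : x ∈ LinearMap.ker (Polynomial.aeval B (Polynomial.X - Polynomial.C (a : K))) ⊔
        LinearMap.ker (Polynomial.aeval B (∏ r ∈ R, (Polynomial.X - Polynomial.C (r : K)))) := by
      rw [Polynomial.sup_ker_aeval_eq_ker_aeval_mul_of_coprime _ hcop]
      exact hx
    obtain ⟨y, hy, z, hz, hyz⟩ := Submodule.mem_sup.1 h1
    obtain ⟨v, hv, hzv⟩ := ih z hz
    rw [LinearMap.mem_ker, map_sub, Polynomial.aeval_X, Polynomial.aeval_C,
      LinearMap.sub_apply, Module.algebraMap_end_apply, sub_eq_zero] at hy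
    refine ⟨Function.update v a y, fun r => ?_, ?_⟩
    · by_cases hr : r = a
      · rw [hr, Function.update_self, hy]
      · rw [Function.update_of_ne hr, hv]
    · rw [Finset.sum_insert ha, Function.update_self, ← hyz, hzv]
      congr 1
      refine Finset.sum_congr rfl fun r hr => ?_
      rw [Function.update_of_ne (fun h => ha (by rw [← h]; exact hr))]

end Pool.Agent.H940.S
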