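import Pool.Agent.H940.R.Poly

set_option autoImplicit false
set_option linter.unusedSectionVars false
set_option linter.unusedVariables false

/-! # Polynomials modulo terms of high degree -/

namespace Pool.Agent.H940.S

open MvPolynomial Pool.Agent.H940.R

variable {K : Type} [Field K] {n : ℕ}

theorem pderiv_mem {F : MvPolynomial (Fin n) K} {k : ℕ} (hF : F ∈ wI K 1 (k + 1)) (t : Fin n) :
    pderiv t F ∈ wI K 1 k := by
  intro d hd
  rw [coeff_pderiv, hF, zero_mul]
  rw [map_add, Finsupp.weight_single]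
  simp only [Pi.one_apply, smul_eq_mul, mul_one]
  omega

/-- inverses modulo terms of high degree -/
theorem exists_inv (u : MvPolynomial (Fin n) K) (hu : constantCoeff u ≠ 0) (k : ℕ) :
    ∃ v : MvPolynomial (Fin n) K, u * v - 1 ∈ wI K 1 k ∧
      (0 < k → constantCoeff v = (constantCoeff u)⁻¹) := by
  set c := constantCoeff u with hc
  set m : MvPolynomial (Fin n) K := 1 - C c⁻¹ * u with hm
  have hm1 : m ∈ wI K 1 1 := by
    rw [mem_one_iff, hm, map_sub, map_one, map_mul, constantCoeff_C, ← hc, inv_mul_cancel₀ hu,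
      sub_self]
  refine ⟨C c⁻¹ * ∑ j ∈ Finset.range k, m ^ j, ?_, fun hk => ?_⟩
  · have h1 : u * (C c⁻¹ * ∑ j ∈ Finset.range k, m ^ j) - 1 = -m ^ k := by
      have h2 : u * (C c⁻¹ * ∑ j ∈ Finset.range k, m ^ j) = (1 - m) * ∑ j ∈ Finset.range k, m ^ j := by
        rw [hm]
        ring
      rw [h2, mul_neg_geom_sum]
      ring
    rw [h1]
    refine Ideal.neg_mem_iff _ |>.2 ?_
    have := wI_pow hm1 k
    rwa [mul_one] at this
  · rw [map_mul, constantCoeff_C, map_sum]
    obtain ⟨l, rfl⟩ : ∃ l, k = l + 1 := ⟨k - 1, by omega⟩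
    rw [Finset.sum_range_succ', Finset.sum_eq_zero, pow_zero, map_one, zero_add, mul_one]
    intro j _
    rw [map_pow, mem_one_iff.1 hm1, zero_pow (Nat.succ_ne_zero j)]

/-- the chain rule -/
theorem pderiv_aeval (b : Fin n → MvPolynomial (Fin n) K) (P : MvPolynomial (Fin n) K)
    (t : Fin n) : pderiv t (aeval b P) = ∑ s, aeval b (pderiv s P) * pderiv t (b s) := by
  classical
  induction P using MvPolynomial.induction_on with
  | C a =>
    rw [algHom_C, algebraMap_eq, pderiv_C]
    symm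
    refine Finset.sum_eq_zero fun s _ => ?_
    rw [pderiv_C, map_zero, zero_mul]
  | add p q hp hq =>
    rw [map_add, map_add, hp, hq, ← Finset.sum_add_distrib]
    refine Finset.sum_congr rfl fun s _ => ?_
    rw [map_add, map_add, add_mul]
  | mul_X p i hp =>
    rw [map_mul, Derivation.leibniz, hp, aeval_X, smul_eq_mul, smul_eq_mul, Finset.mul_sum]
    have h2 : ∀ s, aeval b (pderiv s (p * X i)) * pderiv t (b s) =
        b i * (aeval b (pderiv s p) * pderiv t (b s)) +
          (if s = i then aeval b p * pderiv t (b i) else 0) := by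
      intro s
      rw [pderiv_mul, map_add, map_mul, map_mul, aeval_X]
      by_cases hs : s = i
      · subst hs
        rw [pderiv_X_self, map_one, if_pos rfl]
        ring
      · rw [pderiv_X_of_ne (Ne.symm hs), map_zero, if_neg hs]
        ring
    rw [Finset.sum_congr rfl fun s _ => h2 s, Finset.sum_add_distrib, Finset.sum_ite_eq',
      if_pos (Finset.mem_univ i)]
    ring

theorem aeval_aeval (b c : Fin n → MvPolynomial (Fin n) K) (P : MvPolynomial (Fin n) K) :
    aeval b (aeval c P) = aeval (fun t => aeval b (c t)) P := by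
  rw [← AlgHom.comp_apply, comp_aeval]

/-- substitutions which are congruent to the identity -/
theorem aeval_id {k : ℕ} {b : Fin n → MvPolynomial (Fin n) K} (h : ∀ t, b t - X t ∈ wI K 1 k)
    (P : MvPolynomial (Fin n) K) : aeval b P - P ∈ wI K 1 k := by
  have h1 := aeval_cong' (wI K 1 k) b X h P
  rwa [aeval_X_left, AlgHom.id_apply] at h1

/-- **Inverse coordinates.** -/
theorem exists_inv2 (b : Fin n → MvPolynomial (Fin n) K) (hb : ∀ t, constantCoeff (b t) = 0)
    (hdet : (jk b).det ≠ 0) (k : ℕ) (hk : 2 ≤ k) :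
    ∃ c : Fin n → MvPolynomial (Fin n) K, (∀ t, constantCoeff (c t) = 0) ∧ (jk c).det ≠ 0 ∧
      (∀ t, aeval c (b t) - X t ∈ wI K 1 k) ∧ ∀ t, aeval b (c t) - X t ∈ wI K 1 k := by
  obtain ⟨c, hc, hcb⟩ := newton b hb hdet (k - 1)
  have hk1 : k - 1 + 1 = k := by omega
  rw [hk1] at hcb
  have hcd : (jk c).det ≠ 0 := det_inv b c hb hc fun t => wI_mono hk (hcb t)
  obtain ⟨b', hb', hbc⟩ := newton c hc hcd (k - 1)
  rw [hk1] at hbc
  refine ⟨c, hc, hcd, hcb, fun t => ?_⟩
  -- `b'` is congruent to `b`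
  have h1 : ∀ s, b' s - b s ∈ wI K 1 k := by
    intro s
    -- `aeval b' (aeval c (b s))`
    have h2 : aeval b' (aeval c (b s)) - b s ∈ wI K 1 k := by
      rw [aeval_aeval]
      exact aeval_id hbc (b s)
    have h3 : aeval b' (aeval c (b s)) - b' s ∈ wI K 1 k := by
      have h4 := aeval_mem (hcb s) b' fun t => mem_one_iff.2 (hb' t)
      rwa [map_sub, aeval_X] at h4
    have e : b' s - b s = (aeval b' (aeval c (b s)) - b s) - (aeval b' (aeval c (b s)) - b' s) := by
      ring
    rw [e]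
    exact Ideal.sub_mem _ h2 h3
  have h5 := aeval_cong' (wI K 1 k) b' b h1 (c t)
  have e : aeval b (c t) - X t = (aeval b' (c t) - X t) - (aeval b' (c t) - aeval b (c t)) := by
    ring
  rw [e]
  exact Ideal.sub_mem _ (hbc t) h5

/-- the ideal of the partial derivatives -/
noncomputable def Jac (F : MvPolynomial (Fin n) K) : Ideal (MvPolynomial (Fin n) K) :=
  Ideal.span (Set.range fun t => pderiv t F)

theorem pd_mem_Jac (F : MvPolynomial (Fin n) K) (t : Fin n) : pderiv t F ∈ Jac F :=
  Ideal.subset_span ⟨t, rfl⟩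

/-- the matrix of the partial derivatives of coordinates -/
noncomputable def JM (b : Fin n → MvPolynomial (Fin n) K) :
    Matrix (Fin n) (Fin n) (MvPolynomial (Fin n) K) := Matrix.of fun t s => pderiv t (b s)

theorem cc_det_JM (b : Fin n → MvPolynomial (Fin n) K) :
    constantCoeff (JM b).det = (jk b).det := by
  rw [RingHom.map_det, ← Matrix.det_transpose]
  rfl

theorem pderiv_aeval' (b : Fin n → MvPolynomial (Fin n) K) (h : MvPolynomial (Fin n) K)
    (s : Fin n) : (JM b).det * aeval b (pderiv s h) =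
      ∑ t, (JM b).adjugate s t * pderiv t (aeval b h) := by
  have h1 : ∀ t, (JM b).adjugate s t * pderiv t (aeval b h) =
      ∑ r, (JM b).adjugate s t * JM b t r * aeval b (pderiv r h) := by
    intro t
    rw [pderiv_aeval, Finset.mul_sum]
    refine Finset.sum_congr rfl fun r _ => ?_
    unfold JM
    rw [Matrix.of_apply]
    ring
  rw [Finset.sum_congr rfl fun t _ => h1 t, Finset.sum_comm]
  have h2 : ∀ r, ∑ t, (JM b).adjugate s t * JM b t r * aeval b (pderiv r h) =
      if r = s then (JM b).det * aeval b (pderiv r h) else 0 := by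
    intro r
    rw [← Finset.sum_mul]
    have h3 : ∑ t, (JM b).adjugate s t * JM b t r = ((JM b).adjugate * JM b) s r := rfl
    rw [h3, Matrix.adjugate_mul, Matrix.smul_apply, Matrix.one_apply]
    by_cases hr : r = s
    · rw [if_pos hr, if_pos hr.symm, smul_eq_mul, mul_one]
    · rw [if_neg hr, if_neg (Ne.symm hr), smul_zero, zero_mul]
  rw [Finset.sum_congr rfl fun r _ => h2 r, Finset.sum_ite_eq' Finset.univ s,
    if_pos (Finset.mem_univ s)]

/-- **Transport of the isolatedness.** -/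
theorem iso_coord {h : MvPolynomial (Fin n) K} {M k : ℕ} (hk : 2 ≤ k)
    (b : Fin n → MvPolynomial (Fin n) K)
    (hb : ∀ t, constantCoeff (b t) = 0) (hdet : (jk b).det ≠ 0)
    (H : wI K 1 M ≤ Jac h ⊔ wI K 1 k) : wI K 1 M ≤ Jac (aeval b h) ⊔ wI K 1 k := by
  obtain ⟨c, hc, -, hcb, hbc⟩ := exists_inv2 b hb hdet k hk
  have hb1 : ∀ t, b t ∈ wI K 1 1 := fun t => mem_one_iff.2 (hb t)
  have hc1 : ∀ t, c t ∈ wI K 1 1 := fun t => mem_one_iff.2 (hc t)
  obtain ⟨v, hv, -⟩ := exists_inv (JM b).det (by rw [cc_det_JM]; exact hdet) k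
  have hpd : ∀ s, aeval b (pderiv s h) ∈ Jac (aeval b h) ⊔ wI K 1 k := by
    intro s
    have h1 : (JM b).det * aeval b (pderiv s h) ∈ Jac (aeval b h) := by
      rw [pderiv_aeval']
      exact Ideal.sum_mem _ fun t _ => Ideal.mul_mem_left _ _ (pd_mem_Jac _ t)
    have e : aeval b (pderiv s h) = v * ((JM b).det * aeval b (pderiv s h)) -
        aeval b (pderiv s h) * ((JM b).det * v - 1) := by ring
    rw [e]
    exact Ideal.sub_mem _ (Ideal.mem_sup_left (Ideal.mul_mem_left _ _ h1))
      (Ideal.mem_sup_right (Ideal.mul_mem_left _ _ hv))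
  have hmap : ∀ f ∈ Jac h ⊔ wI K 1 k, aeval b f ∈ Jac (aeval b h) ⊔ wI K 1 k := by
    have h1 : Jac h ⊔ wI K 1 k ≤ Ideal.comap (aeval b) (Jac (aeval b h) ⊔ wI K 1 k) := by
      refine sup_le ?_ ?_
      · unfold Jac
        rw [Ideal.span_le]
        rintro _ ⟨s, rfl⟩
        exact hpd s
      · intro f hf
        exact Ideal.mem_sup_right (aeval_mem hf b hb1)
    exact fun f hf => h1 hf
  intro f hf
  have h1 := hmap _ (H (aeval_mem hf c hc1))
  have h2 : aeval b (aeval c f) - f ∈ wI K 1 k := by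
    rw [aeval_aeval]
    exact aeval_id hbc f
  have e : f = aeval b (aeval c f) - (aeval b (aeval c f) - f) := by ring
  rw [e]
  exact Ideal.sub_mem _ h1 (Ideal.mem_sup_right h2)

theorem iso_cong {h g : MvPolynomial (Fin n) K} {M k : ℕ} (hk : 1 ≤ k)
    (hg : h - g ∈ wI K 1 k) (H : wI K 1 M ≤ Jac h ⊔ wI K 1 k) :
    wI K 1 M ≤ Jac g ⊔ wI K 1 (k - 1) := by
  refine H.trans (sup_le ?_ ?_)
  · unfold Jac
    rw [Ideal.span_le]
    rintro _ ⟨t, rfl⟩
    have hk1 : k = k - 1 + 1 := by omega
    rw [hk1] at hg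
    have h1 := pderiv_mem hg t
    rw [map_sub] at h1
    have e : pderiv t h = pderiv t g + (pderiv t h - pderiv t g) := by ring
    simp only
    rw [e]
    exact Ideal.add_mem _ (Ideal.mem_sup_left (pd_mem_Jac g t)) (Ideal.mem_sup_right h1)
  · exact fun f hf => Ideal.mem_sup_right (wI_mono (Nat.sub_le k 1) hf)

end Pool.Agent.H940.S
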