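import Pool.Agent.H940.S.Quot
import Pool.Agent.H940.S.Avg
import Pool.Agent.H940.R.Tor2

set_option autoImplicit false
set_option linter.unusedSectionVars false
set_option linter.unusedVariables false

/-! # Coordinates in which the averaged vector field is diagonal -/

namespace Pool.Agent.H940.S

open MvPolynomial Pool.Agent.H940.R
open Pool.Agent.H940.R.LK (El coeff_El trace_eig)

variable {K : Type} [Field K] [CharZero K] {n k : ℕ}

/-- **The averaged operator.** -/
theorem exists_op {D : Fin n → MvPolynomial (Fin n) K} (hD : ∀ t, constantCoeff (D t) = 0)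
    (hk : 2 ≤ k) (τ : ℚ) (hτ : ∑ t, constantCoeff (pderiv t (D t)) = (τ : K)) :
    ∃ (A : Module.End K (Tq K n k)) (A' : Module.End K (Fin n → K)) (R : Finset ℚ),
      (∀ x y, A (x * y) = A x * y + x * A y) ∧
      (∀ (r : ℚ) F, vf D F - C (r : K) * F ∈ wI K 1 k → A (qa k F) = (r : K) • qa k F) ∧
      (∀ F G, A (qa k F) = qa k G → lin G = A' (lin F)) ∧
      (∀ F G, A (qa k F) = qa k G → constantCoeff G = 0) ∧
      LinearMap.trace K _ A' = (τ : K) ∧
      Polynomial.aeval A (∏ r ∈ R, (Polynomial.X - Polynomial.C (r : K))) = 0 := by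
  classical
  have hint : Algebra.IsIntegral K (AlgebraicClosure K) := by
    have := AlgebraicClosure.isAlgebraic K
    constructor
    intro x
    exact (this.isAlgebraic x).isIntegral
  obtain ⟨av⟩ := exists_av K
  obtain ⟨δ, hδ, hδm⟩ := exists_delta (k := k) hD
  obtain ⟨P, hP1, hP2⟩ := av.exists_good δ (lT D)
  obtain ⟨R, hR⟩ := hP1.exists_set
  set A := Polynomial.aeval δ P with hA
  have hAm : ∀ x y, A (x * y) = A x * y + x * A y := hP1.leib hδm
  have hA1 : A 1 = 0 := by
    have h1 := hAm 1 1
    rw [mul_one, mul_one, one_mul] at h1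
    exact left_eq_add.1 h1
  -- the linear part
  obtain ⟨l', hl'⟩ := exists_lift (k := k) (lin : MvPolynomial (Fin n) K →ₗ[K] (Fin n → K))
    (fun F hF => by
      funext s
      rw [lin_apply, Pi.zero_apply]
      exact mem_one_iff.1 (pderiv_mem (k := 1) (wI_mono hk hF) s))
  have hl1 : ∀ x, l' (δ x) = lT D (l' x) := by
    intro x
    obtain ⟨F, rfl⟩ := qa_surj x
    rw [hδ, hl', hl', lin_vf hD]
  -- the constant term
  obtain ⟨c', hc'⟩ := exists_lift (k := k)
    ({ toFun := fun F => constantCoeff F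
       map_add' := fun F G => map_add _ _ _
       map_smul' := fun c F => by
        rw [RingHom.id_apply, smul_eq_C_mul, map_mul, constantCoeff_C, smul_eq_mul] } :
      MvPolynomial (Fin n) K →ₗ[K] K)
    (fun F hF => mem_one_iff.1 (wI_mono (by omega) hF))
  have hc2 : ∀ F, c' (qa k F) = constantCoeff F := hc'
  have hc1 : ∀ x, c' (δ x) = (0 : Module.End K K) (c' x) := by
    intro x
    obtain ⟨F, rfl⟩ := qa_surj x
    rw [hδ, hc2, vf_cc hD, LinearMap.zero_apply]
  have hc3 : ∀ x, c' (A x) = 0 := by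
    have h1 := aeval_comm c' δ 0 hc1 P
    have h2 := h1 1
    rw [← hA, hA1, map_zero] at h2
    have h3 : c' 1 = 1 := by
      have h5 := hc2 1
      rw [map_one (qa k)] at h5
      rw [h5, map_one]
    rw [h3] at h2
    intro x
    have h4 : c' x = c' x • (1 : K) := by rw [smul_eq_mul, mul_one]
    rw [hA, h1 x, h4, map_smul, ← h2, smul_zero]
  refine ⟨A, Polynomial.aeval (lT D) P, R, hAm, fun r F hF => ?_, fun F G h => ?_,
    fun F G h => ?_, ?_, hR⟩
  · refine hP1.apply r _ ?_
    rw [hδ, ← map_smul, smul_eq_C_mul]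
    exact qa_eq.2 hF
  · rw [← hl', ← hl' F, ← h]
    exact aeval_comm l' δ (lT D) hl1 P _
  · rw [← hc2, ← h]
    exact hc3 _
  · exact hP2.trace τ (by rw [trace_lT, hτ])

/-- **Coordinates of eigenvectors.** -/
theorem exists_coords {D : Fin n → MvPolynomial (Fin n) K} (hD : ∀ t, constantCoeff (D t) = 0)
    (hk : 2 ≤ k) (τ : ℚ) (hτ : ∑ t, constantCoeff (pderiv t (D t)) = (τ : K))
    (S : Finset (Fin n)) (hS : ∀ t ∈ S, D t = C (1 / 2) * X t) :
    ∃ (A : Module.End K (Tq K n k)) (y : Fin n → MvPolynomial (Fin n) K) (ρ : Fin n → ℚ),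
      (∀ t, constantCoeff (y t) = 0) ∧ (jk y).det ≠ 0 ∧ (∀ t ∈ S, y t = X t) ∧
      (∀ t ∈ S, ρ t = 1 / 2) ∧ ∑ t, ρ t = τ ∧
      (∀ F, vf D F - F ∈ wI K 1 k → A (qa k F) = qa k F) ∧
      ∀ G, A (qa k (aeval y G)) = qa k (aeval y (El (fun t => (ρ t : K)) G)) := by
  classical
  obtain ⟨A, A', R, hAm, hAe, hAl, hAc, hAt, hR⟩ := exists_op (k := k) hD hk τ hτ
  have hA1 : A 1 = 0 := by
    have h1 := hAm 1 1
    rw [mul_one, mul_one, one_mul] at h1
    exact left_eq_add.1 h1
  -- the decompositions of the variables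
  have hdec : ∀ t : Fin n, ∃ v : ℚ → MvPolynomial (Fin n) K,
      (∀ r, A (qa k (v r)) = (r : K) • qa k (v r)) ∧
      qa k (X t) = ∑ r ∈ insert (1 / 2) R, qa k (v r) ∧
      (t ∈ S → ∀ r, v r = if r = 1 / 2 then X t else 0) := by
    intro t
    by_cases ht : t ∈ S
    · refine ⟨fun r => if r = 1 / 2 then X t else 0, fun r => ?_, ?_, fun _ _ => rfl⟩
      · dsimp only
        split_ifs with hr
        · refine hAe r _ ?_
          rw [vf_X, hS t ht, hr]
          push_cast
          rw [sub_self]
          exact Ideal.zero_mem _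
        · rw [map_zero, map_zero, smul_zero]
      · rw [Finset.sum_eq_single (1 / 2)]
        · dsimp only
          rw [if_pos rfl]
        · intro r _ hr
          dsimp only
          rw [if_neg hr, map_zero]
        · intro h
          exact absurd (Finset.mem_insert_self _ _) h
    · obtain ⟨v, hv, hx⟩ := decomp A R (qa k (X t)) (by rw [hR, LinearMap.zero_apply])
      choose u hu using fun r => qa_surj (v r)
      refine ⟨fun r => if r ∈ R then u r else 0, fun r => ?_, ?_, fun h => absurd h ht⟩
      · dsimp only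
        split_ifs with hr
        · rw [hu, hv]
        · rw [map_zero, map_zero, smul_zero]
      · rw [hx]
        symm
        rw [← Finset.sum_subset (Finset.subset_insert (1 / 2) R)]
        · refine Finset.sum_congr rfl fun r hr => ?_
          dsimp only
          rw [if_pos hr, hu]
        · intro r _ hr
          dsimp only
          rw [if_neg hr, map_zero]
  choose v hv hvs hvS using hdec
  -- the determinant
  have hlin : ∀ t, lin (X t) = ∑ r ∈ insert (1 / 2) R, lin (v t r) := by
    intro t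
    have h1 := hvs t
    rw [← map_sum, qa_eq] at h1
    rw [← map_sum, ← sub_eq_zero, ← map_sub]
    funext s
    rw [lin_apply, Pi.zero_apply]
    exact mem_one_iff.1 (pderiv_mem (k := 1) (wI_mono hk h1) s)
  have hdet : ∃ ρ : Fin n → ℚ, Matrix.det (fun t => lin (v t (ρ t))) ≠ 0 := by
    have h1 : Matrix.det (fun t => ∑ r ∈ insert (1 / 2) R, lin (v t r)) ≠ 0 := by
      have h2 : (fun t => ∑ r ∈ insert (1 / 2) R, lin (v t r)) =
          (1 : Matrix (Fin n) (Fin n) K) := by
        funext t
        rw [← hlin]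
        funext s
        rw [lin_apply, Matrix.one_apply]
        by_cases hst : t = s
        · rw [if_pos hst, hst, pderiv_X_self, map_one]
        · rw [if_neg hst, pderiv_X_of_ne hst, map_zero]
      rw [h2, Matrix.det_one]
      exact one_ne_zero
    have h3 := (Matrix.detRowAlternating : (Fin n → K) [⋀^Fin n]→ₗ[K] K).toMultilinearMap.map_sum_finset
      (fun t r => lin (v t r)) (fun _ => insert (1 / 2) R)
    have h4 : Matrix.det (fun t => ∑ r ∈ insert (1 / 2) R, lin (v t r)) =
        ∑ ρ ∈ Fintype.piFinset fun _ : Fin n => insert (1 / 2) R,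
          Matrix.det (fun t => lin (v t (ρ t))) := h3
    rw [h4] at h1
    obtain ⟨ρ, -, hρ⟩ := Finset.exists_ne_zero_of_sum_ne_zero h1
    exact ⟨ρ, hρ⟩
  obtain ⟨ρ, hρ⟩ := hdet
  have hρS : ∀ t ∈ S, ρ t = 1 / 2 := by
    intro t ht
    by_contra hc
    apply hρ
    refine Matrix.det_eq_zero_of_row_eq_zero t fun s => ?_
    rw [hvS t ht, if_neg hc, map_zero, Pi.zero_apply]
  set y : Fin n → MvPolynomial (Fin n) K := fun t =>
    v t (ρ t) - C (constantCoeff (v t (ρ t))) with hy
  have hyS : ∀ t ∈ S, y t = X t := by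
    intro t ht
    rw [hy]
    dsimp only
    rw [hvS t ht, if_pos (hρS t ht), constantCoeff_X, map_zero, sub_zero]
  have hcy : ∀ t, constantCoeff (y t) = 0 := fun t => by
    rw [hy]
    dsimp only
    rw [map_sub, constantCoeff_C, sub_self]
  have hjk : jk y = fun t => lin (v t (ρ t)) := by
    funext t s
    unfold jk
    rw [Matrix.of_apply, hy, lin_apply]
    dsimp only
    rw [map_sub, pderiv_C, sub_zero]
  have hAy : ∀ t, A (qa k (y t)) = (ρ t : K) • qa k (y t) := by
    intro t
    have h1 : A (qa k (C (constantCoeff (v t (ρ t))))) = 0 := by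
      have h2 : qa k (C (constantCoeff (v t (ρ t))) : MvPolynomial (Fin n) K) =
          constantCoeff (v t (ρ t)) • 1 := by
        rw [← algebraMap_eq, AlgHom.commutes, Algebra.algebraMap_eq_smul_one]
      rw [h2, map_smul, hA1, smul_zero]
    have h3 : (ρ t : K) * constantCoeff (v t (ρ t)) = 0 := by
      have h4 := hAc (v t (ρ t)) (C (ρ t : K) * v t (ρ t)) (by
        rw [hv, ← smul_eq_C_mul, map_smul])
      rwa [map_mul, constantCoeff_C] at h4
    rw [hy]
    dsimp only
    rw [map_sub, map_sub, h1, sub_zero, hv, smul_sub]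
    have h5 : (ρ t : K) • qa k (C (constantCoeff (v t (ρ t))) : MvPolynomial (Fin n) K) = 0 := by
      rw [← map_smul, smul_eq_C_mul, ← C_mul, h3, map_zero, map_zero]
    rw [h5, sub_zero]
  have hdety : (jk y).det ≠ 0 := by
    rw [hjk]
    exact hρ
  refine ⟨A, y, ρ, hcy, hdety, hyS, hρS, ?_, fun F hF => ?_, fun G => ?_⟩
  · -- the trace
    obtain ⟨Z, hYZ, -⟩ := isUnit_iff_exists.1 ((Matrix.isUnit_iff_isUnit_det _).2
      (isUnit_iff_ne_zero.2 hdety))
    have h1 := trace_eig A' hYZ (fun t => (ρ t : K)) (fun t => by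
      have h2 : jk y t = lin (v t (ρ t)) := by rw [hjk]
      rw [h2]
      have h3 := hAl (v t (ρ t)) (C (ρ t : K) * v t (ρ t)) (by
        rw [hv, ← smul_eq_C_mul, map_smul])
      rw [← h3, ← smul_eq_C_mul, map_smul])
    rw [hAt] at h1
    have h2 : ((∑ t, ρ t : ℚ) : K) = (τ : K) := by
      rw [h1]
      push_cast
      rfl
    exact_mod_cast h2
  · have h1 := hAe 1 F (by rw [Rat.cast_one, C_1, one_mul]; exact hF)
    rwa [Rat.cast_one, one_smul] at h1
  · induction G using MvPolynomial.induction_on with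
    | C a =>
      rw [algHom_C, algebraMap_eq, derivation_C, map_zero, map_zero]
      have h2 : qa k (C a : MvPolynomial (Fin n) K) = a • 1 := by
        rw [← algebraMap_eq, AlgHom.commutes, Algebra.algebraMap_eq_smul_one]
      rw [h2, map_smul, hA1, smul_zero]
    | add p q hp hq => simp only [map_add, hp, hq]
    | mul_X p i hp =>
      have h1 : El (fun t => (ρ t : K)) (X i) = C (ρ i : K) * X i := mkDerivation_X _ _ _
      rw [map_mul, map_mul, hAm, hp, aeval_X, hAy, Derivation.leibniz, h1, smul_eq_mul,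
        smul_eq_mul, map_add, map_add, map_mul, map_mul, map_mul, map_mul, map_mul, aeval_X,
        algHom_C, algebraMap_eq, map_mul]
      have h2 : qa k (C (ρ i : K) : MvPolynomial (Fin n) K) = (ρ i : K) • 1 := by
        rw [← algebraMap_eq, AlgHom.commutes, Algebra.algebraMap_eq_smul_one]
      rw [h2, smul_one_mul]
      ring

end Pool.Agent.H940.S
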