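import Pool.Agent.H940.S.Basic

set_option autoImplicit false
set_option linter.unusedSectionVars false
set_option linter.unusedVariables false

/-! # Euler relations modulo terms of high degree -/

namespace Pool.Agent.H940.S

open MvPolynomial Pool.Agent.H940.R

variable {K : Type} [Field K] {n : ℕ}

/-- a vector field with the trace `τ` which multiplies `F` by a unit, up to terms of high degree -/
def Eul (F : MvPolynomial (Fin n) K) (k : ℕ) (τ : K) : Prop :=
  ∃ (u : MvPolynomial (Fin n) K) (D : Fin n → MvPolynomial (Fin n) K), constantCoeff u = 1 ∧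
    (∀ t, constantCoeff (D t) = 0) ∧ u * F - ∑ t, D t * pderiv t F ∈ wI K 1 k ∧
    ∑ t, constantCoeff (pderiv t (D t)) = τ

/-- the linear part of a composition -/
theorem cc_pd_aeval (b : Fin n → MvPolynomial (Fin n) K) (hb : ∀ t, constantCoeff (b t) = 0)
    (P : MvPolynomial (Fin n) K) (t : Fin n) : constantCoeff (pderiv t (aeval b P)) =
      ∑ s, constantCoeff (pderiv s P) * constantCoeff (pderiv t (b s)) := by
  rw [pderiv_aeval, map_sum]
  refine Finset.sum_congr rfl fun s _ => ?_
  rw [map_mul, cc_aeval b hb]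

theorem eul_coord {h : MvPolynomial (Fin n) K} {k : ℕ} {τ : K}
    (b : Fin n → MvPolynomial (Fin n) K) (hb : ∀ t, constantCoeff (b t) = 0)
    (hdet : (jk b).det ≠ 0) (H : Eul h k τ) : Eul (aeval b h) k τ := by
  obtain ⟨u, D, hu, hD, hr, htr⟩ := H
  have hb1 : ∀ t, b t ∈ wI K 1 1 := fun t => mem_one_iff.2 (hb t)
  set δ := (jk b).det with hδ
  refine ⟨C δ⁻¹ * ((JM b).det * aeval b u),
    fun t => C δ⁻¹ * ∑ s, aeval b (D s) * (JM b).adjugate s t, ?_, fun t => ?_, ?_, ?_⟩
  · rw [map_mul, map_mul, constantCoeff_C, cc_det_JM, cc_aeval b hb, hu, mul_one, ← hδ,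
      inv_mul_cancel₀ hdet]
  · rw [map_mul, map_sum, Finset.sum_eq_zero, mul_zero]
    intro s _
    rw [map_mul, cc_aeval b hb, hD, zero_mul]
  · have h1 := aeval_mem hr b hb1
    rw [map_sub, map_mul, map_sum] at h1
    have h2 : ∑ t, C δ⁻¹ * (∑ s, aeval b (D s) * (JM b).adjugate s t) * pderiv t (aeval b h) =
        C δ⁻¹ * ((JM b).det * ∑ s, aeval b (D s * pderiv s h)) := by
      have h3 : ∀ s, (JM b).det * aeval b (D s * pderiv s h) =
          ∑ t, aeval b (D s) * (JM b).adjugate s t * pderiv t (aeval b h) := by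
        intro s
        rw [map_mul, mul_left_comm, pderiv_aeval', Finset.mul_sum]
        exact Finset.sum_congr rfl fun t _ => by ring
      rw [Finset.mul_sum, Finset.sum_congr rfl fun s _ => h3 s, Finset.sum_comm, Finset.mul_sum]
      refine Finset.sum_congr rfl fun t _ => ?_
      rw [mul_assoc, Finset.sum_mul]
    rw [h2]
    have e : C δ⁻¹ * ((JM b).det * aeval b u) * aeval b h -
        C δ⁻¹ * ((JM b).det * ∑ s, aeval b (D s * pderiv s h)) =
        (C δ⁻¹ * (JM b).det) * (aeval b u * aeval b h - ∑ s, aeval b (D s * pderiv s h)) := by ring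
    rw [e]
    exact Ideal.mul_mem_left _ _ h1
  · have h1 : ∀ t, constantCoeff (pderiv t (C δ⁻¹ * ∑ s, aeval b (D s) * (JM b).adjugate s t)) =
        δ⁻¹ * ∑ s, ∑ r, constantCoeff (pderiv r (D s)) *
          (constantCoeff ((JM b).adjugate s t) * constantCoeff (JM b t r)) := by
      intro t
      rw [pderiv_C_mul, map_mul, constantCoeff_C, map_sum, map_sum]
      congr 1
      refine Finset.sum_congr rfl fun s _ => ?_
      rw [Derivation.leibniz, smul_eq_mul, smul_eq_mul, map_add, map_mul, map_mul, cc_aeval b hb,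
        hD, zero_mul, zero_add, cc_pd_aeval b hb, Finset.mul_sum]
      refine Finset.sum_congr rfl fun r _ => ?_
      unfold JM
      rw [Matrix.of_apply]
      ring
    rw [Finset.sum_congr rfl fun t _ => h1 t, ← Finset.mul_sum, Finset.sum_comm]
    have h2 : ∀ s, ∑ t, ∑ r, constantCoeff (pderiv r (D s)) *
        (constantCoeff ((JM b).adjugate s t) * constantCoeff (JM b t r)) =
        δ * constantCoeff (pderiv s (D s)) := by
      intro s
      rw [Finset.sum_comm]
      have h3 : ∀ r, ∑ t, constantCoeff (pderiv r (D s)) *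
          (constantCoeff ((JM b).adjugate s t) * constantCoeff (JM b t r)) =
          if r = s then constantCoeff (pderiv r (D s)) * δ else 0 := by
        intro r
        rw [← Finset.mul_sum]
        have h4 : ∑ t, constantCoeff ((JM b).adjugate s t) * constantCoeff (JM b t r) =
            constantCoeff (((JM b).adjugate * JM b) s r) := by
          rw [Matrix.mul_apply, map_sum]
          exact Finset.sum_congr rfl fun t _ => (map_mul _ _ _).symm
        rw [h4, Matrix.adjugate_mul, Matrix.smul_apply, Matrix.one_apply]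
        by_cases hr : r = s
        · rw [if_pos hr, if_pos hr.symm, smul_eq_mul, mul_one, cc_det_JM]
        · rw [if_neg hr, if_neg (Ne.symm hr), smul_zero, map_zero, mul_zero]
      rw [Finset.sum_congr rfl fun r _ => h3 r, Finset.sum_ite_eq' Finset.univ s,
        if_pos (Finset.mem_univ s), mul_comm]
    rw [Finset.sum_congr rfl fun s _ => h2 s, ← Finset.mul_sum, ← mul_assoc, inv_mul_cancel₀ hdet,
      one_mul]
    exact htr

end Pool.Agent.H940.S
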