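import Pool.Agent.H940.S.Split

set_option autoImplicit false
set_option linter.unusedSectionVars false
set_option linter.unusedVariables false

/-! # The vector field after splitting -/

namespace Pool.Agent.H940.S

open MvPolynomial Pool.Agent.H940.R

variable {K : Type} [Field K] {n : ℕ}

theorem cc_ev (S : Finset (Fin n)) (F : MvPolynomial (Fin n) K) :
    constantCoeff (ev S F) = constantCoeff F := by
  classical
  refine cc_aeval _ (fun i => ?_) F
  split_ifs
  · rw [map_zero]
  · rw [constantCoeff_X]

theorem pd_ev_mem {S : Finset (Fin n)} {t : Fin n} (ht : t ∈ S) (F : MvPolynomial (Fin n) K) :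
    pderiv t (ev S F) = 0 := by
  classical
  unfold ev
  rw [pderiv_aeval]
  refine Finset.sum_eq_zero fun s _ => ?_
  by_cases hs : s ∈ S
  · rw [if_pos hs, map_zero, mul_zero]
  · rw [if_neg hs, pderiv_X_of_ne (fun h => hs (by rw [h]; exact ht)), mul_zero]

theorem pd_ev_notMem {S : Finset (Fin n)} {t : Fin n} (ht : t ∉ S) (F : MvPolynomial (Fin n) K) :
    pderiv t (ev S F) = ev S (pderiv t F) := by
  classical
  unfold ev
  rw [pderiv_aeval, Finset.sum_eq_single t]
  · rw [if_neg ht, pderiv_X_self, mul_one]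
  · intro s _ hs
    by_cases hs' : s ∈ S
    · rw [if_pos hs', map_zero, mul_zero]
    · rw [if_neg hs', pderiv_X_of_ne hs, mul_zero]
  · intro h
    exact absurd (Finset.mem_univ t) h

theorem pd_QS_mem {S : Finset (Fin n)} {a : Fin n → K} {t : Fin n} (ht : t ∈ S) :
    pderiv t (QS S a) = C (2 * a t) * X t := by
  classical
  unfold QS
  rw [map_sum, Finset.sum_eq_single t]
  · rw [pderiv_C_mul, pderiv_pow, pderiv_X_self]
    have h5 : ((2 : ℕ) : MvPolynomial (Fin n) K) = C (2 : K) := by
      rw [map_ofNat]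
      norm_num
    rw [h5, C_mul]
    norm_num
    ring
  · intro s _ hs
    rw [pderiv_C_mul, pderiv_pow, pderiv_X_of_ne hs, mul_zero, mul_zero]
  · intro h
    exact absurd ht h

theorem pd_QS_notMem {S : Finset (Fin n)} {a : Fin n → K} {t : Fin n} (ht : t ∉ S) :
    pderiv t (QS S a) = 0 := by
  classical
  unfold QS
  rw [map_sum]
  refine Finset.sum_eq_zero fun s hs => ?_
  rw [pderiv_C_mul, pderiv_pow, pderiv_X_of_ne (fun h => ht (by rw [← h]; exact hs)), mul_zero, mul_zero]

theorem ev_QS (S : Finset (Fin n)) (a : Fin n → K) : ev S (QS S a) = 0 := by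
  unfold QS
  rw [map_sum]
  refine Finset.sum_eq_zero fun s hs => ?_
  rw [map_mul, map_pow, ev_X_mem hs, zero_pow two_ne_zero, mul_zero]

theorem QS_mem (S : Finset (Fin n)) (a : Fin n → K) : QS S a ∈ wI K 1 2 := by
  refine Ideal.sum_mem _ fun s _ => Ideal.mul_mem_left _ _ ?_
  have := wI_pow (X_mem (K := K) s) 2
  rwa [mul_one] at this

/-- **The vector field after splitting.** -/
theorem exists_field [CharZero K] {S : Finset (Fin n)} {a : Fin n → K} (ha : ∀ s ∈ S, a s ≠ 0)
    {F : MvPolynomial (Fin n) K} (hF : F ∈ wI K 1 3) {k : ℕ} (hk : 3 ≤ k)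
    (hE : F - ev S F ∈ wI K 1 k) {τ : K} (H : Eul (QS S a + F) k τ) :
    ∃ D : Fin n → MvPolynomial (Fin n) K, (∀ t, constantCoeff (D t) = 0) ∧
      (∀ t ∈ S, D t = C (1 / 2) * X t) ∧
      ∑ t, D t * pderiv t (QS S a + ev S F) - (QS S a + ev S F) ∈ wI K 1 k ∧
      ∑ t, constantCoeff (pderiv t (D t)) = τ := by
  classical
  obtain ⟨u, D0, hu, hD0, hr, htr⟩ := H
  have hD1 : ∀ t, D0 t ∈ wI K 1 1 := fun t => mem_one_iff.2 (hD0 t)
  obtain ⟨l, rfl⟩ : ∃ l, k = l + 1 := ⟨k - 1, by omega⟩
  set h2 := QS S a + ev S F with hh2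
  -- the relation for `h2`
  have hr2 : u * h2 - ∑ t, D0 t * pderiv t h2 ∈ wI K 1 (l + 1) := by
    have e : u * h2 - ∑ t, D0 t * pderiv t h2 = (u * (QS S a + F) -
        ∑ t, D0 t * pderiv t (QS S a + F)) - (u * (F - ev S F) -
          ∑ t, D0 t * pderiv t (F - ev S F)) := by
      have h3 : ∀ t, D0 t * pderiv t (QS S a + F) - D0 t * pderiv t (F - ev S F) =
          D0 t * pderiv t h2 := by
        intro t
        rw [hh2, map_add, map_sub, map_add]
        ring
      rw [← Finset.sum_congr rfl fun t _ => h3 t, Finset.sum_sub_distrib, hh2]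
      ring
    rw [e]
    refine Ideal.sub_mem _ hr (Ideal.sub_mem _ (Ideal.mul_mem_left _ _ hE)
      (Ideal.sum_mem _ fun t _ => ?_))
    rw [add_comm l 1]
    exact wI_mul (hD1 t) (pderiv_mem hE t)
  -- the traces of the variables in `S`
  have hhalf : ∀ t ∈ S, constantCoeff (pderiv t (D0 t)) = 1 / 2 := by
    intro t ht
    have hevF : ev S F ∈ wI K 1 3 := ev_mem S hF
    have h3 : QS S a - ∑ s ∈ S, C (2 * a s) * (X s * D0 s) ∈ wI K 1 3 := by
      have hu1 : u - 1 ∈ wI K 1 1 := by rw [mem_one_iff, map_sub, map_one, hu, sub_self]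
      have e : QS S a - ∑ s ∈ S, C (2 * a s) * (X s * D0 s) =
          (u * h2 - ∑ t, D0 t * pderiv t h2) - (u - 1) * QS S a - u * ev S F +
            ∑ t, D0 t * pderiv t (ev S F) := by
        have h4 : ∑ t, D0 t * pderiv t h2 = ∑ s ∈ S, C (2 * a s) * (X s * D0 s) +
            ∑ t, D0 t * pderiv t (ev S F) := by
          have h5 : ∑ s ∈ S, C (2 * a s) * (X s * D0 s) = ∑ t, D0 t * pderiv t (QS S a) := by
            rw [← Finset.sum_subset (Finset.subset_univ S)]
            · refine Finset.sum_congr rfl fun s hs => ?_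
              rw [pd_QS_mem hs]
              ring
            · intro s _ hs
              rw [pd_QS_notMem hs, mul_zero]
          rw [h5, ← Finset.sum_add_distrib]
          refine Finset.sum_congr rfl fun s _ => ?_
          rw [hh2, map_add, mul_add]
        rw [h4, hh2]
        ring
      rw [e]
      refine Ideal.add_mem _ (Ideal.sub_mem _ (Ideal.sub_mem _ (wI_mono hk hr2)
        (wI_mono (by omega) (wI_mul hu1 (QS_mem S a)))) (Ideal.mul_mem_left _ _ hevF))
        (Ideal.sum_mem _ fun s _ => ?_)
      exact wI_mono (by omega) (wI_mul (hD1 s) (pderiv_mem (k := 2) hevF s))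
    have h4 := h3 (Finsupp.single t 2) (by rw [Finsupp.weight_single]; simp)
    rw [coeff_sub, coeff_sum, Finset.sum_eq_single t] at h4
    · have h5 : coeff (Finsupp.single t 2) (QS S a) = a t := by
        unfold QS
        rw [coeff_sum, Finset.sum_eq_single t]
        · rw [coeff_C_mul, coeff_X_pow, if_pos rfl, mul_one]
        · intro s _ hs
          rw [coeff_C_mul, coeff_X_pow, if_neg, mul_zero]
          intro h
          exact hs (by
            have := congrArg (fun z => z t) h
            simp only [Finsupp.single_eq_same] at this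
            by_contra hc
            rw [Finsupp.single_eq_of_ne (Ne.symm hc)] at this
            omega)
        · intro h
          exact absurd ht h
      have h6 : (Finsupp.single t 2 : Fin n →₀ ℕ) = Finsupp.single t 1 + Finsupp.single t 1 := by
        rw [← Finsupp.single_add]
      rw [h5, coeff_C_mul, h6, coeff_X_mul] at h4
      have h7 : constantCoeff (pderiv t (D0 t)) = coeff (Finsupp.single t 1) (D0 t) := by
        rw [constantCoeff_eq, coeff_pderiv]
        simp
      rw [h7]
      have h8 := ha t ht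
      field_simp
      have h9 : a t * (1 - 2 * coeff (Finsupp.single t 1) (D0 t)) = 0 := by
        linear_combination h4
      have h10 := (mul_eq_zero.1 h9).resolve_left h8
      linear_combination -h10
    · intro s _ hs
      rw [coeff_C_mul, coeff_X_mul', if_neg, mul_zero]
      rw [Finsupp.mem_support_iff, not_not, Finsupp.single_eq_of_ne hs]
    · intro h
      exact absurd ht h
  obtain ⟨v, hv, hv0⟩ := exists_inv (ev S u) (by rw [cc_ev, hu]; exact one_ne_zero) (l + 1)
  have hv1 : constantCoeff v = 1 := by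
    rw [hv0 (Nat.succ_pos l), cc_ev, hu, inv_one]
  refine ⟨fun t => if t ∈ S then C (1 / 2) * X t else v * ev S (D0 t), fun t => ?_,
    fun t ht => if_pos ht, ?_, ?_⟩
  · dsimp only
    split_ifs
    · rw [map_mul, constantCoeff_X, mul_zero]
    · rw [map_mul, cc_ev, hD0, mul_zero]
  · -- the restriction of the relation
    have h3 := ev_mem S hr2
    rw [map_sub, map_mul, map_sum] at h3
    have h4 : ev S h2 = ev S F := by rw [hh2, map_add, ev_QS, zero_add, ev_ev]
    have h5 : ∀ t, ev S (D0 t * pderiv t h2) =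
        if t ∈ S then 0 else ev S (D0 t) * pderiv t (ev S F) := by
      intro t
      rw [map_mul]
      split_ifs with ht
      · rw [hh2, map_add, pd_QS_mem ht, pd_ev_mem ht, add_zero, map_mul, ev_X_mem ht, mul_zero,
          mul_zero]
      · rw [← pd_ev_notMem ht, h4]
    rw [h4, Finset.sum_congr rfl fun t _ => h5 t] at h3
    have h6 : ∀ t, (if t ∈ S then C (1 / 2) * X t else v * ev S (D0 t)) * pderiv t h2 =
        (if t ∈ S then C (a t) * X t ^ 2 else 0) +
          v * (if t ∈ S then 0 else ev S (D0 t) * pderiv t (ev S F)) := by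
      intro t
      by_cases ht : t ∈ S
      · rw [if_pos ht, if_pos ht, if_pos ht, hh2, map_add, pd_QS_mem ht, pd_ev_mem ht, add_zero,
          mul_zero, add_zero]
        have h7 : (C (1 / 2) * C (2 * a t) : MvPolynomial (Fin n) K) = C (a t) := by
          rw [← C_mul]
          congr 1
          field_simp
        rw [← h7]
        ring
      · rw [if_neg ht, if_neg ht, if_neg ht, hh2, map_add, pd_QS_notMem ht, zero_add, zero_add]
        ring
    rw [Finset.sum_congr rfl fun t _ => h6 t, Finset.sum_add_distrib, ← Finset.mul_sum,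
      Finset.sum_ite_mem, Finset.univ_inter]
    have e : ∑ s ∈ S, C (a s) * X s ^ 2 +
        v * (∑ t, if t ∈ S then 0 else ev S (D0 t) * pderiv t (ev S F)) - h2 =
        (ev S u * v - 1) * ev S F -
          v * (ev S u * ev S F - ∑ t, if t ∈ S then 0 else ev S (D0 t) * pderiv t (ev S F)) := by
      rw [hh2]
      unfold QS
      ring
    rw [e]
    exact Ideal.sub_mem _ (Ideal.mul_mem_right _ _ hv) (Ideal.mul_mem_left _ _ h3)
  · rw [← htr]
    refine Finset.sum_congr rfl fun t _ => ?_
    dsimp only
    by_cases ht : t ∈ S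
    · rw [if_pos ht, pderiv_C_mul, pderiv_X_self, mul_one, constantCoeff_C, hhalf t ht]
    · rw [if_neg ht, Derivation.leibniz, smul_eq_mul, smul_eq_mul, map_add, map_mul, map_mul,
        cc_ev, hD0, zero_mul, add_zero, hv1, one_mul, pd_ev_notMem ht, cc_ev]

end Pool.Agent.H940.S
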