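import Pool.Agent.H940.S.Pos
import Pool.Agent.H940.R.Local

set_option autoImplicit false
set_option linter.unusedSectionVars false
set_option linter.unusedVariables false

/-! # p-adic integrals of germs with an Euler relation -/

namespace Pool.Agent.H940.S

open MvPolynomial Pool.Agent.H940.R
open Pool.Agent.Y230.PT hiding CO
open Pool.Agent.Y230.PS Pool.Agent.Q57.QP

section alg

variable {K : Type} [Field K] [CharZero K] {n : ℕ}

/-- **The normal form.** -/
theorem normal_form (h : MvPolynomial (Fin n) K) (h2 : h ∈ wI K 1 2) (M : ℕ) (hM : 1 ≤ M)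
    (hJ : ∀ k, 2 ≤ k → wI K 1 M ≤ Jac h ⊔ wI K 1 k) (τ : ℚ)
    (hE : ∀ k, 2 ≤ k → Eul h k (τ : K)) :
    ∃ (b1 b2 b3 : Fin n → MvPolynomial (Fin n) K) (g R : MvPolynomial (Fin n) K)
      (w : Fin n → ℕ) (N : ℕ),
      (∀ t, constantCoeff (b1 t) = 0) ∧ (jk b1).det ≠ 0 ∧
      (∀ t, constantCoeff (b2 t) = 0) ∧ (jk b2).det ≠ 0 ∧
      (∀ t, constantCoeff (b3 t) = 0) ∧ (jk b3).det ≠ 0 ∧
      aeval b3 (aeval b2 (aeval b1 h)) = g + R ∧
      (∀ i, 0 < w i) ∧ 0 < N ∧ ((∑ i, w i : ℕ) : ℚ) = N * τ ∧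
      IsWeightedHomogeneous w g N ∧ R ∈ wI K w (N + 1) ∧
      ∀ x : Fin n → K, (∀ i, eval x (pderiv i g) = 0) → x = 0 := by
  classical
  set k := M ^ 2 + 2 * M + 5 with hk
  -- the quadratic part
  obtain ⟨b1, S, a, hb1, hd1, ha, hq⟩ := exists_quad h h2
  set F := aeval b1 h - QS S a with hF
  have hF3 : F ∈ wI K 1 3 := hq
  have hA : aeval b1 h = QS S a + F := by rw [hF]; ring
  -- splitting
  obtain ⟨σ, F', hσ, hσF, hF'3, hF'k⟩ := split ha hF3 k
  obtain ⟨hσc, hσd⟩ := jk_of_cong hσ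
  have hF'k' : F' - ev S F' ∈ wI K 1 k := wI_mono (by omega) hF'k
  have hE1 : Eul (QS S a + F') k (τ : K) := by
    rw [← hσF, ← hA]
    exact eul_coord σ hσc hσd (eul_coord b1 hb1 hd1 (hE k (by omega)))
  have hJ1 : wI K 1 M ≤ Jac (QS S a + F') ⊔ wI K 1 k := by
    rw [← hσF, ← hA]
    exact iso_coord (by omega) σ hσc hσd (iso_coord (by omega) b1 hb1 hd1 (hJ k (by omega)))
  -- the vector field
  obtain ⟨D, hD0, hDS, hDr, hDt⟩ := exists_field ha hF'3 (by omega) hF'k' hE1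
  obtain ⟨b, ρ, g, hb, hdb, hbS, hρS, hρτ, hbg, hρ⟩ := exists_normal (k := k) hD0 (by omega) τ hDt
    S hDS (QS S a + ev S F') hDr
  have hb' : ∀ t, b t ∈ wI K 1 1 := fun t => mem_one_iff.2 (hb t)
  -- the approximation
  have hR : aeval b (QS S a + F') - g ∈ wI K 1 k := by
    have e : aeval b (QS S a + F') - g = aeval b (F' - ev S F') +
        (aeval b (QS S a + ev S F') - g) := by
      rw [map_add, map_sub, map_add]
      ring
    rw [e]
    exact Ideal.add_mem _ (aeval_mem hF'k' b hb') hbg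
  have hJ2 : wI K 1 M ≤ Jac g ⊔ wI K 1 (k - 1) :=
    iso_cong (by omega) hR (iso_coord (by omega) b hb hdb hJ1)
  -- the quadratic part of `g`
  have hg3 : g - QS S a ∈ wI K 1 3 := by
    have e : g - QS S a = (aeval b (QS S a) - QS S a) + aeval b (ev S F') -
        (aeval b (QS S a + ev S F') - g) := by
      rw [map_add]
      ring
    rw [e]
    refine Ideal.sub_mem _ (Ideal.add_mem _ ?_ (aeval_mem (ev_mem S hF'3) b hb'))
      (wI_mono (by omega) hbg)
    unfold QS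
    rw [map_sum, ← Finset.sum_sub_distrib]
    refine Ideal.sum_mem _ fun s hs => ?_
    have e2 : aeval b (C (a s) * X s ^ 2) - C (a s) * X s ^ 2 =
        C (a s) * (b s + X s) * (b s - X s) := by
      rw [map_mul, map_pow, aeval_X, algHom_C, algebraMap_eq]
      ring
    rw [e2]
    exact Ideal.mul_mem_left _ _ (wI_mono (by omega) (hbS s hs))
  -- the weights
  have hpos := rho_pos ρ S M hM hρS (fun i hi => by
    obtain ⟨c, j, hc, hsup⟩ := exists_axis (k := k - 1) (by omega) hJ2 i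
    refine ⟨c, j, axis_two hg3 hi hsup, hc, ?_⟩
    have h3 := hρ _ hsup
    have h4 : ∀ t, (((Finsupp.single i c + Finsupp.single j 1 : Fin n →₀ ℕ) t : ℕ) : ℚ) * ρ t =
        (if t = i then (c : ℚ) * ρ t else 0) + (if t = j then ρ t else 0) := by
      intro t
      rw [Finsupp.add_apply, Finsupp.single_apply, Finsupp.single_apply]
      by_cases h5 : t = i
      · by_cases h6 : t = j
        · rw [if_pos h5.symm, if_pos h6.symm, if_pos h5, if_pos h6]
          push_cast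
          ring
        · rw [if_pos h5.symm, if_neg (Ne.symm h6), if_pos h5, if_neg h6]
          push_cast
          ring
      · by_cases h6 : t = j
        · rw [if_neg (Ne.symm h5), if_pos h6.symm, if_neg h5, if_pos h6]
          push_cast
          ring
        · rw [if_neg (Ne.symm h5), if_neg (Ne.symm h6), if_neg h5, if_neg h6]
          push_cast
          ring
    rw [Finset.sum_congr rfl fun t _ => h4 t, Finset.sum_add_distrib, Finset.sum_ite_eq',
      Finset.sum_ite_eq', if_pos (Finset.mem_univ i), if_pos (Finset.mem_univ j)] at h3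
    exact h3)
  obtain ⟨N, w, hN, hw⟩ := exists_int ρ fun i => (hpos i).1
  have hwh := whom (K := K) hM hN hpos hw (g := g) hρ
  refine ⟨b1, σ, b, g, aeval b (QS S a + F') - g, w, N, hb1, hd1, hσc, hσd, hb, hdb, ?_,
    w_pos hM hN hpos hw, hN, ?_, hwh, ?_, fun x hx => ?_⟩
  · rw [hA, hσF]
    ring
  · rw [← hρτ, Nat.cast_sum, Finset.mul_sum]
    exact Finset.sum_congr rfl fun i _ => hw i
  · refine high_weight hM hN hpos hw N 1 (by rw [mul_one]) ?_ hR
    have h5 : ((2 * M : ℕ) : ℚ) < (k : ℚ) := by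
      have : 2 * M < k := by omega
      exact_mod_cast this
    push_cast at h5
    linarith
  · refine no_crit (k := k - 1) hM hN hpos hw hwh ?_ hJ2 x hx
    omega

end alg

variable {p : ℕ} [Fact p.Prime] {n : ℕ}

/-- **The p-adic integrals.** -/
theorem lp_eul (h : MvPolynomial (Fin n) ℚ_[p]) (hn : 0 < n) (h2 : h ∈ wI ℚ_[p] 1 2) (M : ℕ)
    (hM : 1 ≤ M) (hJ : ∀ k, 2 ≤ k → wI ℚ_[p] 1 M ≤ Jac h ⊔ wI ℚ_[p] 1 k) (τ : ℚ)
    (hE : ∀ k, 2 ≤ k → Eul h k (τ : ℚ_[p])) :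
    ∃ (w : Fin n → ℕ) (N : ℕ), (∀ i, 0 < w i) ∧ 0 < N ∧ ((∑ i, w i : ℕ) : ℚ) = N * τ ∧
      ∀ m : ℂ → ℕ∞, (∀ T0 : ℂ, 1 < ‖T0‖ →
        (if T0 ^ N = (p : ℂ) ^ (∑ i, w i) then 1 else 0) + m1 p T0 ≤ m T0) →
      LP m (fun x => ‖eval x h‖) 0 := by
  obtain ⟨b1, b2, b3, g, R, w, N, hb1, hd1, hb2, hd2, hb3, hd3, hE', hw, hN, hτ, hwh, hR, hcrit⟩ :=
    normal_form h h2 M hM hJ τ hE
  refine ⟨w, N, hw, hN, hτ, fun m hm => ?_⟩
  refine lp_coord b1 hb1 hd1 h m (lp_coord b2 hb2 hd2 _ m (lp_coord b3 hb3 hd3 _ m ?_))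
  rw [hE']
  refine lp_sqh hw hN hwh (fun α hα => ?_) hcrit ⟨⟨0, hn⟩⟩ m hm
  by_contra hlt
  exact (mem_support_iff.1 hα) (hR α (by omega))

end Pool.Agent.H940.S
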