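import Pool.Agent.H940.S.Diag
import Pool.Agent.H940.S.Field

set_option autoImplicit false
set_option linter.unusedSectionVars false
set_option linter.unusedVariables false

/-! # The quasihomogeneous normal form -/

namespace Pool.Agent.H940.S

open MvPolynomial Pool.Agent.H940.R
open Pool.Agent.H940.R.LK (El coeff_El)

variable {K : Type} [Field K] {n k : ℕ}

/-- truncation -/
theorem exists_cut (F : MvPolynomial (Fin n) K) (k : ℕ) : ∃ g : MvPolynomial (Fin n) K,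
    ∀ α, coeff α g = if α.degree < k then coeff α F else 0 := by
  classical
  refine ⟨∑ i ∈ Finset.range k, homogeneousComponent i F, fun α => ?_⟩
  rw [coeff_sum]
  simp only [coeff_homogeneousComponent]
  rw [Finset.sum_ite_eq (Finset.range k) α.degree fun _ => coeff α F]
  simp only [Finset.mem_range]

variable [CharZero K]

/-- **The quasihomogeneous normal form.** -/
theorem exists_normal {D : Fin n → MvPolynomial (Fin n) K} (hD : ∀ t, constantCoeff (D t) = 0)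
    (hk : 2 ≤ k) (τ : ℚ) (hτ : ∑ t, constantCoeff (pderiv t (D t)) = (τ : K))
    (S : Finset (Fin n)) (hS : ∀ t ∈ S, D t = C (1 / 2) * X t) (h : MvPolynomial (Fin n) K)
    (hh : ∑ t, D t * pderiv t h - h ∈ wI K 1 k) :
    ∃ (b : Fin n → MvPolynomial (Fin n) K) (ρ : Fin n → ℚ) (g : MvPolynomial (Fin n) K),
      (∀ t, constantCoeff (b t) = 0) ∧ (jk b).det ≠ 0 ∧ (∀ t ∈ S, b t - X t ∈ wI K 1 k) ∧
      (∀ t ∈ S, ρ t = 1 / 2) ∧ ∑ t, ρ t = τ ∧ aeval b h - g ∈ wI K 1 k ∧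
      ∀ α ∈ g.support, ∑ t, (α t : ℚ) * ρ t = 1 := by
  classical
  obtain ⟨A, y, ρ, hy, hdet, hyS, hρS, hsum, hAh, hAG⟩ := exists_coords (k := k) hD hk τ hτ S hS
  obtain ⟨b, hb, hdb, hby, hyb⟩ := exists_inv2 y hy hdet k hk
  have hb1 : ∀ t, b t ∈ wI K 1 1 := fun t => mem_one_iff.2 (hb t)
  set F := aeval b h with hF
  have h1 : aeval y F - h ∈ wI K 1 k := by
    rw [hF, aeval_aeval]
    exact aeval_id hyb h
  have h2 : qa k (aeval y F) = qa k h := qa_eq.2 h1
  have h3 := hAG F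
  rw [h2, hAh h hh, ← h2, qa_eq, ← map_sub] at h3
  have h4 := aeval_mem h3 b hb1
  rw [aeval_aeval] at h4
  have h5 := aeval_id hby (F - El (fun t => (ρ t : K)) F)
  have h6 : F - El (fun t => (ρ t : K)) F ∈ wI K 1 k := by
    have := Ideal.sub_mem _ h4 h5
    rwa [sub_sub_cancel] at this
  obtain ⟨g, hg⟩ := exists_cut F k
  refine ⟨b, ρ, g, hb, hdb, fun t ht => ?_, hρS, hsum, ?_, fun α hα => ?_⟩
  · have := hby t
    rwa [hyS t ht, aeval_X] at this
  · intro α hα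
    rw [weight_degree] at hα
    rw [coeff_sub, hg, if_pos hα, sub_self]
  · rw [mem_support_iff, hg] at hα
    by_cases hc : α.degree < k
    · rw [if_pos hc] at hα
      have h7 := h6 α (by rw [weight_degree]; exact hc)
      rw [coeff_sub, coeff_El] at h7
      have h8 : (1 - ∑ t, (α t : K) * (ρ t : K)) * coeff α F = 0 := by
        rw [sub_mul, one_mul]
        exact h7
      have h9 := (mul_eq_zero.1 h8).resolve_right hα
      have h10 : ((∑ t, (α t : ℚ) * ρ t : ℚ) : K) = ((1 : ℚ) : K) := by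
        push_cast
        exact (sub_eq_zero.1 h9).symm
      exact_mod_cast h10
    · rw [if_neg hc] at hα
      exact absurd rfl hα

/-- elementary positivity of the weights -/
theorem rho_pos (ρ : Fin n → ℚ) (S : Finset (Fin n)) (M : ℕ) (hM : 1 ≤ M)
    (hS : ∀ t ∈ S, ρ t = 1 / 2)
    (h : ∀ i, i ∉ S → ∃ (a : ℕ) (j : Fin n), 2 ≤ a ∧ a ≤ M ∧ (a : ℚ) * ρ i + ρ j = 1) :
    ∀ i, 0 < ρ i ∧ ρ i ≤ 1 / 2 ∧ 1 ≤ 2 * (M : ℚ) * ρ i := by
  intro i
  haveI : Nonempty (Fin n) := ⟨i⟩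
  obtain ⟨i0, h0⟩ := Finite.exists_min ρ
  obtain ⟨i1, h1⟩ := Finite.exists_max ρ
  have hpos : 0 < ρ i0 := by
    by_contra hc
    push Not at hc
    have hi0 : i0 ∉ S := fun hs => by
      rw [hS i0 hs] at hc
      norm_num at hc
    obtain ⟨a, j, ha, -, haj⟩ := h i0 hi0
    have ha' : (2 : ℚ) ≤ a := by exact_mod_cast ha
    have h2 : 1 - 2 * ρ i0 ≤ ρ i1 := by
      refine le_trans ?_ (h1 j)
      nlinarith [mul_nonneg (sub_nonneg.2 ha') (neg_nonneg.2 hc)]
    have hi1 : i1 ∉ S := fun hs => by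
      rw [hS i1 hs] at h2
      linarith
    obtain ⟨a', j', ha2, -, haj'⟩ := h i1 hi1
    have ha2' : (2 : ℚ) ≤ a' := by exact_mod_cast ha2
    have h3 := h0 j'
    have h4 : 0 ≤ ρ i1 := by linarith
    nlinarith [mul_nonneg (sub_nonneg.2 ha2') h4]
  have hpos' : ∀ j, 0 < ρ j := fun j => lt_of_lt_of_le hpos (h0 j)
  have hhalf : ∀ j, ρ j ≤ 1 / 2 := by
    intro j
    by_cases hj : j ∈ S
    · exact (hS j hj).le
    · obtain ⟨a, l, ha, -, hal⟩ := h j hj
      have ha' : (2 : ℚ) ≤ a := by exact_mod_cast ha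
      nlinarith [mul_nonneg (sub_nonneg.2 ha') (hpos' j).le, hpos' l]
  refine ⟨hpos' i, hhalf i, ?_⟩
  have hM' : (1 : ℚ) ≤ M := by exact_mod_cast hM
  by_cases hi : i ∈ S
  · rw [hS i hi]
    linarith
  · obtain ⟨a, l, ha, haM, hal⟩ := h i hi
    have haM' : (a : ℚ) ≤ M := by exact_mod_cast haM
    nlinarith [mul_nonneg (sub_nonneg.2 haM') (hpos' i).le, hhalf l]

end Pool.Agent.H940.S
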