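import Pool.Agent.H940.S.Norm

set_option autoImplicit false
set_option linter.unusedSectionVars false
set_option linter.unusedVariables false

/-! # Weights and critical points of the normal form -/

namespace Pool.Agent.H940.S

open MvPolynomial Pool.Agent.H940.R

variable {K : Type} [Field K] {n k : ℕ}

theorem weight_sum (w : Fin n → ℕ) (d : Fin n →₀ ℕ) :
    Finsupp.weight w d = ∑ i, d i * w i := by
  rw [Finsupp.weight_apply, Finsupp.sum_fintype _ _ (by simp)]
  rfl

/-- the restriction to an axis -/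
theorem exists_axis {g : MvPolynomial (Fin n) K} {M : ℕ} (hk : M + 1 ≤ k)
    (hJ : wI K 1 M ≤ Jac g ⊔ wI K 1 k) (i : Fin n) :
    ∃ (a : ℕ) (j : Fin n), a ≤ M ∧ Finsupp.single i a + Finsupp.single j 1 ∈ g.support := by
  classical
  by_contra hcon
  push Not at hcon
  set w : Fin n → ℕ := fun j => if j = i then 1 else M + 1 with hw
  have hwpos : ∀ j, 0 < w j := by
    intro j
    rw [hw]
    dsimp only
    split_ifs <;> omega
  have h1 : Jac g ≤ wI K w (M + 1) := by
    unfold Jac
    rw [Ideal.span_le]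
    rintro _ ⟨j, rfl⟩
    intro d hd
    dsimp only
    by_contra hc
    have hdi : d = Finsupp.single i (d i) := by
      ext l
      by_cases hl : l = i
      · rw [hl, Finsupp.single_eq_same]
      · rw [Finsupp.single_eq_of_ne hl]
        by_contra h2
        rw [weight_sum] at hd
        have h3 := Finset.single_le_sum (f := fun l => d l * w l) (fun _ _ => Nat.zero_le _)
          (Finset.mem_univ l)
        have h4 : w l = M + 1 := by
          rw [hw]
          dsimp only
          rw [if_neg hl]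
        rw [h4] at h3
        have h5 : 1 ≤ d l := Nat.one_le_iff_ne_zero.2 h2
        nlinarith [Nat.mul_le_mul_right (M + 1) h5]
    have hdM : d i ≤ M := by
      rw [weight_sum] at hd
      have h3 := Finset.single_le_sum (f := fun l => d l * w l) (fun _ _ => Nat.zero_le _)
        (Finset.mem_univ i)
      have h4 : w i = 1 := by
        rw [hw]
        dsimp only
        rw [if_pos rfl]
      rw [h4, mul_one] at h3
      omega
    apply hcon (d i) j hdM
    rw [← hdi, mem_support_iff]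
    intro h5
    apply hc
    rw [coeff_pderiv, h5, zero_mul]
  have h2 : wI K 1 k ≤ wI K w (M + 1) := fun F hF => wI_mono hk (one_le_weight hwpos hF)
  have h3 : (X i : MvPolynomial (Fin n) K) ^ M ∈ wI K 1 M := by
    have := wI_pow (X_mem (K := K) i) M
    rwa [mul_one] at this
  have h4 := (hJ.trans (sup_le h1 h2)) h3
  have h5 := h4 (Finsupp.single i M) (by
    rw [Finsupp.weight_single, hw]
    dsimp only
    rw [if_pos rfl, smul_eq_mul, mul_one]
    omega)
  rw [coeff_X_pow, if_pos rfl] at h5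
  exact one_ne_zero h5

/-- the exponents for the variables which are not squares -/
theorem axis_two {S : Finset (Fin n)} {c : Fin n → K} {g : MvPolynomial (Fin n) K}
    (hg : g - QS S c ∈ wI K 1 3) {a : ℕ} {i j : Fin n} (hi : i ∉ S)
    (h : Finsupp.single i a + Finsupp.single j 1 ∈ g.support) : 2 ≤ a := by
  classical
  by_contra ha
  have hd : Finsupp.weight (1 : Fin n → ℕ) (Finsupp.single i a + Finsupp.single j 1) < 3 := by
    rw [map_add, Finsupp.weight_single, Finsupp.weight_single]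
    simp only [Pi.one_apply, smul_eq_mul, mul_one]
    omega
  have h1 := hg _ hd
  rw [coeff_sub, sub_eq_zero] at h1
  rw [mem_support_iff, h1] at h
  apply h
  unfold QS
  rw [coeff_sum]
  refine Finset.sum_eq_zero fun s hs => ?_
  rw [coeff_C_mul, coeff_X_pow, if_neg, mul_zero]
  intro h2
  have hsi : s ≠ i := fun h => hi (by rw [← h]; exact hs)
  have h3 := congrArg (fun z => z s) h2
  simp only [Finsupp.single_eq_same, Finsupp.coe_add, Pi.add_apply] at h3
  rw [Finsupp.single_eq_of_ne hsi, zero_add] at h3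
  by_cases hj : s = j
  · rw [hj, Finsupp.single_eq_same] at h3
    omega
  · rw [Finsupp.single_eq_of_ne hj] at h3
    omega

/-- integral weights -/
theorem exists_int (ρ : Fin n → ℚ) (h : ∀ i, 0 < ρ i) : ∃ (N : ℕ) (w : Fin n → ℕ), 0 < N ∧
    ∀ i, (w i : ℚ) = N * ρ i := by
  classical
  set q : ℕ := ∏ i, (ρ i).den with hq
  have hq0 : 0 < q := Finset.prod_pos fun i _ => (ρ i).den_pos
  have h2 : ∀ i, ∃ w : ℕ, (w : ℚ) = q * ρ i := by
    intro i
    obtain ⟨c, hc⟩ := Finset.dvd_prod_of_mem (fun i => (ρ i).den) (Finset.mem_univ i)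
    have h3 : (0 : ℤ) < (ρ i).num := Rat.num_pos.2 (h i)
    refine ⟨c * (ρ i).num.toNat, ?_⟩
    have h4 : (((ρ i).num.toNat : ℕ) : ℚ) = ((ρ i).num : ℚ) := by
      have h5 : (((ρ i).num.toNat : ℕ) : ℤ) = (ρ i).num := Int.toNat_of_nonneg h3.le
      exact_mod_cast h5
    rw [Nat.cast_mul, h4, hq, hc]
    push_cast
    rw [← Rat.den_mul_eq_num]
    ring
  choose w hw using h2
  exact ⟨q, w, hq0, hw⟩

section

variable {ρ : Fin n → ℚ} {M N : ℕ} {w : Fin n → ℕ} (hM : 1 ≤ M) (hN : 0 < N)
  (hρ : ∀ i, 0 < ρ i ∧ ρ i ≤ 1 / 2 ∧ 1 ≤ 2 * (M : ℚ) * ρ i) (hw : ∀ i, (w i : ℚ) = N * ρ i)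
include hM hN hρ hw

theorem w_pos (i : Fin n) : 0 < w i := by
  have h1 : (0 : ℚ) < w i := by
    rw [hw]
    exact mul_pos (by exact_mod_cast hN) (hρ i).1
  exact_mod_cast h1

/-- the degree is bounded by the weight -/
theorem degree_le (d : Fin n →₀ ℕ) {e : ℕ} (c : ℚ) (he : (e : ℚ) ≤ N * c)
    (hd : Finsupp.weight w d ≤ e) : (d.degree : ℚ) ≤ 2 * M * c := by
  have hN' : (0 : ℚ) < N := by exact_mod_cast hN
  have h1 : (d.degree : ℚ) ≤ ∑ i, 2 * (M : ℚ) * ((d i : ℚ) * ρ i) := by
    rw [Finsupp.degree_eq_sum, Nat.cast_sum]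
    refine Finset.sum_le_sum fun i _ => ?_
    have h2 := (hρ i).2.2
    have h3 : (0 : ℚ) ≤ d i := Nat.cast_nonneg _
    nlinarith
  have h2 : ((Finsupp.weight w d : ℕ) : ℚ) = N * ∑ i, (d i : ℚ) * ρ i := by
    rw [weight_sum, Nat.cast_sum, Finset.mul_sum]
    refine Finset.sum_congr rfl fun i _ => ?_
    rw [Nat.cast_mul, hw]
    ring
  have h3 : ((Finsupp.weight w d : ℕ) : ℚ) ≤ N * c :=
    le_trans (by exact_mod_cast hd) he
  rw [h2] at h3
  have h4 : ∑ i, (d i : ℚ) * ρ i ≤ c := le_of_mul_le_mul_left h3 hN'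
  rw [← Finset.mul_sum] at h1
  have h5 : (0 : ℚ) ≤ M := Nat.cast_nonneg _
  nlinarith

/-- terms of high degree have a high weight -/
theorem high_weight {F : MvPolynomial (Fin n) K} (e : ℕ) (c : ℚ) (he : (e : ℚ) ≤ N * c)
    (hc : 2 * M * c < k) (hF : F ∈ wI K 1 k) : F ∈ wI K w (e + 1) := by
  intro d hd
  refine hF d ?_
  rw [weight_degree]
  have h1 := degree_le hM hN hρ hw d c he (by omega)
  have h2 : ((d.degree : ℕ) : ℚ) < (k : ℚ) := lt_of_le_of_lt h1 hc
  exact_mod_cast h2

theorem whom {g : MvPolynomial (Fin n) K} (hg : ∀ α ∈ g.support, ∑ t, (α t : ℚ) * ρ t = 1) :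
    IsWeightedHomogeneous w g N := by
  intro d hd
  have h1 := hg d (mem_support_iff.2 hd)
  have h2 : ((Finsupp.weight w d : ℕ) : ℚ) = N * ∑ i, (d i : ℚ) * ρ i := by
    rw [weight_sum, Nat.cast_sum, Finset.mul_sum]
    refine Finset.sum_congr rfl fun i _ => ?_
    rw [Nat.cast_mul, hw]
    ring
  rw [h1, mul_one] at h2
  exact_mod_cast h2

/-- the curve through a point -/
theorem curve_wh {F : MvPolynomial (Fin n) K} (x : Fin n → K) {e : ℕ}
    (hF : IsWeightedHomogeneous w F e) (hx : eval x F = 0) :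
    aeval (fun j => Polynomial.C (x j) * Polynomial.X ^ w j : Fin n → Polynomial K) F = 0 := by
  have h1 : aeval (fun j => Polynomial.C (x j) * Polynomial.X ^ w j : Fin n → Polynomial K) F =
      Polynomial.C (eval x F) * Polynomial.X ^ e := by
    rw [aeval_def, eval₂_eq', eval_eq', map_sum, Finset.sum_mul]
    refine Finset.sum_congr rfl fun d hd => ?_
    have h2 := hF (mem_support_iff.1 hd)
    rw [weight_sum] at h2
    rw [map_mul, map_prod, mul_assoc, ← h2, ← Finset.prod_pow_eq_pow_sum, ← Finset.prod_mul_distrib]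
    congr 1
    refine Finset.prod_congr rfl fun i _ => ?_
    rw [mul_pow, map_pow, ← pow_mul, mul_comm (w i)]
  rw [h1, hx, map_zero, zero_mul]

theorem curve_dvd {F : MvPolynomial (Fin n) K} (x : Fin n → K) {e : ℕ}
    (hF : F ∈ wI K w e) : (Polynomial.X : Polynomial K) ^ e ∣
      aeval (fun j => Polynomial.C (x j) * Polynomial.X ^ w j : Fin n → Polynomial K) F := by
  rw [aeval_def, eval₂_eq']
  refine Finset.dvd_sum fun d hd => Dvd.dvd.mul_left ?_ _
  have h2 : e ≤ Finsupp.weight w d := by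
    by_contra hc
    exact (mem_support_iff.1 hd) (hF d (by omega))
  rw [weight_sum] at h2
  refine (pow_dvd_pow _ h2).trans ?_
  rw [← Finset.prod_pow_eq_pow_sum]
  refine Finset.prod_dvd_prod_of_dvd _ _ fun i _ => ?_
  rw [mul_pow, ← pow_mul, mul_comm (w i)]
  exact dvd_mul_left _ _

/-- **There are no critical points outside of the origin.** -/
theorem no_crit {g : MvPolynomial (Fin n) K} (hg : IsWeightedHomogeneous w g N)
    (hk : M ^ 2 < k) (hJ : wI K 1 M ≤ Jac g ⊔ wI K 1 k) (x : Fin n → K)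
    (hx : ∀ i, eval x (pderiv i g) = 0) : x = 0 := by
  classical
  by_contra hne
  obtain ⟨i, hi⟩ : ∃ i, x i ≠ 0 := by
    by_contra hcon
    push Not at hcon
    exact hne (funext hcon)
  set θ : MvPolynomial (Fin n) K →ₐ[K] Polynomial K :=
    aeval (fun j => Polynomial.C (x j) * Polynomial.X ^ w j : Fin n → Polynomial K) with hθ
  have h1 : Jac g ≤ (Ideal.span {(Polynomial.X : Polynomial K) ^ (M * w i + 1)}).comap θ := by
    unfold Jac
    rw [Ideal.span_le]
    rintro _ ⟨j, rfl⟩
    rw [SetLike.mem_coe, Ideal.mem_comap]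
    dsimp only
    have h2 : ∃ e, IsWeightedHomogeneous w (pderiv j g) e := by
      refine ⟨N - w j, ?_⟩
      intro d hd
      rw [coeff_pderiv] at hd
      have h3 := hg (left_ne_zero_of_mul hd)
      rw [map_add, Finsupp.weight_single, smul_eq_mul, one_mul] at h3
      omega
    obtain ⟨e, he⟩ := h2
    rw [hθ, curve_wh hM hN hρ hw x he (hx j)]
    exact Ideal.zero_mem _
  have h2 : wI K 1 k ≤ (Ideal.span {(Polynomial.X : Polynomial K) ^ (M * w i + 1)}).comap θ := by
    intro F hF
    rw [Ideal.mem_comap, Ideal.mem_span_singleton]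
    refine curve_dvd hM hN hρ hw x (high_weight hM hN hρ hw (M * w i) (M * ρ i) ?_ ?_ hF)
    · rw [Nat.cast_mul, hw]
      exact le_of_eq (by ring)
    · have h3 : ((M ^ 2 : ℕ) : ℚ) < (k : ℚ) := by exact_mod_cast hk
      push_cast at h3
      have h4 := (hρ i).2.1
      have h5 : (0 : ℚ) ≤ M := Nat.cast_nonneg _
      nlinarith [mul_nonneg h5 h5]
  have h3 : (X i : MvPolynomial (Fin n) K) ^ M ∈ wI K 1 M := by
    have := wI_pow (X_mem (K := K) i) M
    rwa [mul_one] at this
  have h4 := (hJ.trans (sup_le h1 h2)) h3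
  rw [Ideal.mem_comap, Ideal.mem_span_singleton, map_pow, hθ, aeval_X, mul_pow, ← pow_mul,
    ← Polynomial.C_pow, Polynomial.X_pow_dvd_iff] at h4
  have h5 := h4 (w i * M) (by rw [mul_comm]; exact Nat.lt_succ_self _)
  rw [Polynomial.coeff_C_mul, Polynomial.coeff_X_pow, if_pos rfl, mul_one] at h5
  exact hi (eq_zero_of_pow_eq_zero h5)

end

end Pool.Agent.H940.S
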