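import Pool.Agent.H940.S.Eul

set_option autoImplicit false
set_option linter.unusedSectionVars false
set_option linter.unusedVariables false

/-! # The quadratic part -/

namespace Pool.Agent.H940.S

open MvPolynomial Pool.Agent.H940.R

variable {K : Type} [Field K] {n : ℕ}

/-- the second derivatives at the origin -/
noncomputable def hs (F : MvPolynomial (Fin n) K) : Matrix (Fin n) (Fin n) K :=
  Matrix.of fun i j => constantCoeff (pderiv i (pderiv j F))

theorem hs_apply (F : MvPolynomial (Fin n) K) (i j : Fin n) :
    hs F i j = constantCoeff (pderiv i (pderiv j F)) := rfl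

theorem pd_comm (F : MvPolynomial (Fin n) K) (i j : Fin n) :
    pderiv i (pderiv j F) = pderiv j (pderiv i F) := by
  classical
  have h1 : ⁅(pderiv i : Derivation K (MvPolynomial (Fin n) K) (MvPolynomial (Fin n) K)),
      (pderiv j : Derivation K (MvPolynomial (Fin n) K) (MvPolynomial (Fin n) K))⁆ =
      (0 : Derivation K (MvPolynomial (Fin n) K) (MvPolynomial (Fin n) K)) := by
    refine derivation_ext fun s => ?_
    rw [Derivation.commutator_apply, pderiv_X, pderiv_X, Derivation.zero_apply]
    simp only [Pi.single_apply]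
    split_ifs <;> simp
  have h2 := Derivation.congr_fun h1 F
  rw [Derivation.commutator_apply, Derivation.zero_apply, sub_eq_zero] at h2
  exact h2

theorem hs_symm (F : MvPolynomial (Fin n) K) (i j : Fin n) : hs F i j = hs F j i := by
  rw [hs_apply, hs_apply, pd_comm]

theorem mem_two {F : MvPolynomial (Fin n) K} :
    F ∈ wI K 1 2 ↔ constantCoeff F = 0 ∧ ∀ i, constantCoeff (pderiv i F) = 0 := by
  constructor
  · intro h
    exact ⟨mem_one_iff.1 (wI_mono one_le_two h), fun i => mem_one_iff.1 (pderiv_mem h i)⟩
  · rintro ⟨h0, h1⟩ d hd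
    rw [weight_degree] at hd
    by_cases hd0 : d = 0
    · rw [hd0]
      exact h0
    · obtain ⟨i, hi⟩ := Finsupp.ne_iff.1 hd0
      have h2 : Finsupp.single i 1 ≤ d := by
        rw [Finsupp.single_le_iff]
        exact Nat.one_le_iff_ne_zero.2 hi
      obtain ⟨e, he⟩ := exists_add_of_le h2
      have h3 : e = 0 := by
        rw [he, map_add, Finsupp.degree_single] at hd
        exact (Finsupp.degree_eq_zero_iff e).1 (by omega)
      have h4 := h1 i
      rw [constantCoeff_eq, coeff_pderiv] at h4
      rw [he, h3, add_zero]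
      simpa using h4

theorem mem_three [CharZero K] {F : MvPolynomial (Fin n) K} (h0 : F ∈ wI K 1 2)
    (h : ∀ i j, hs F i j = 0) : F ∈ wI K 1 3 := by
  intro d hd
  by_cases h2 : Finsupp.weight (1 : Fin n → ℕ) d < 2
  · exact h0 d h2
  · rw [weight_degree] at hd h2
    have hd0 : d ≠ 0 := by
      rintro rfl
      rw [map_zero] at h2
      omega
    obtain ⟨i, hi⟩ := Finsupp.ne_iff.1 hd0
    have h3 : Finsupp.single i 1 ≤ d := by
      rw [Finsupp.single_le_iff]
      exact Nat.one_le_iff_ne_zero.2 hi
    obtain ⟨e, he⟩ := exists_add_of_le h3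
    rw [he, map_add, Finsupp.degree_single] at hd h2
    have he0 : e ≠ 0 := by
      rintro rfl
      rw [map_zero] at h2
      omega
    obtain ⟨j, hj⟩ := Finsupp.ne_iff.1 he0
    have h4 : Finsupp.single j 1 ≤ e := by
      rw [Finsupp.single_le_iff]
      exact Nat.one_le_iff_ne_zero.2 hj
    obtain ⟨e', he'⟩ := exists_add_of_le h4
    rw [he', map_add, Finsupp.degree_single] at hd
    have h5 : e' = 0 := (Finsupp.degree_eq_zero_iff e').1 (by omega)
    rw [h5, add_zero] at he'
    have h6 := h j i
    rw [hs_apply, constantCoeff_eq, coeff_pderiv, coeff_pderiv, zero_add, Finsupp.coe_zero,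
      Pi.zero_apply, Nat.cast_zero, zero_add, mul_one] at h6
    rw [he, he', add_comm]
    refine (mul_eq_zero.1 h6).resolve_right ?_
    exact_mod_cast Nat.succ_ne_zero ((Finsupp.single j 1 : Fin n →₀ ℕ) i)

/-- linear coordinates -/
noncomputable def lc (A : Matrix (Fin n) (Fin n) K) (i : Fin n) : MvPolynomial (Fin n) K :=
  ∑ j, C (A i j) * X j

theorem cc_lc (A : Matrix (Fin n) (Fin n) K) (i : Fin n) : constantCoeff (lc A i) = 0 := by
  unfold lc
  rw [map_sum]
  exact Finset.sum_eq_zero fun j _ => by rw [map_mul, constantCoeff_X, mul_zero]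

theorem pd_lc (A : Matrix (Fin n) (Fin n) K) (i t : Fin n) : pderiv t (lc A i) = C (A i t) := by
  classical
  unfold lc
  rw [map_sum, Finset.sum_eq_single t]
  · rw [pderiv_C_mul, pderiv_X_self, mul_one]
  · intro j _ hj
    rw [pderiv_C_mul, pderiv_X_of_ne hj, mul_zero]
  · intro h
    exact absurd (Finset.mem_univ t) h

theorem jk_lc (A : Matrix (Fin n) (Fin n) K) : jk (lc A) = A := by
  ext t s
  unfold jk
  rw [Matrix.of_apply, pd_lc, constantCoeff_C]

theorem hs_lc (A : Matrix (Fin n) (Fin n) K) (F : MvPolynomial (Fin n) K) :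
    hs (aeval (lc A) F) = A.transpose * hs F * A := by
  ext i j
  rw [hs_apply, pderiv_aeval, map_sum, map_sum, Matrix.mul_apply]
  refine Finset.sum_congr rfl fun s _ => ?_
  rw [pd_lc, mul_comm, pderiv_C_mul, map_mul, constantCoeff_C, cc_pd_aeval _ (cc_lc A),
    Matrix.mul_apply, mul_comm]
  congr 1
  refine Finset.sum_congr rfl fun r _ => ?_
  rw [pd_lc, constantCoeff_C, Matrix.transpose_apply, hs_apply, mul_comm]

/-- a diagonal symmetric matrix -/
theorem exists_diag [CharZero K] (H : Matrix (Fin n) (Fin n) K) (hH : ∀ i j, H i j = H j i) :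
    ∃ A : Matrix (Fin n) (Fin n) K, A.det ≠ 0 ∧ ∀ i j, i ≠ j → (A.transpose * H * A) i j = 0 := by
  classical
  haveI : Invertible (2 : K) := invertibleOfNonzero two_ne_zero
  have hsym : LinearMap.IsSymm (Matrix.toBilin' H) := by
    constructor
    intro x y
    rw [RingHom.id_apply, Matrix.toBilin'_apply', Matrix.toBilin'_apply']
    have hT : H.transpose = H := by
      ext i j
      rw [Matrix.transpose_apply, hH]
    rw [Matrix.dotProduct_mulVec, ← Matrix.mulVec_transpose, hT, dotProduct_comm]
  obtain ⟨v, hv⟩ := LinearMap.BilinForm.exists_orthogonal_basis hsym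
  set e : Fin (Module.finrank K (Fin n → K)) ≃ Fin n := finCongr (Module.finrank_fin_fun K) with he
  set b := v.reindex e with hb
  refine ⟨Matrix.of fun i j => b j i, ?_, fun i j hij => ?_⟩
  · have h1 : LinearIndependent K (Matrix.of fun j i => b j i).row := b.linearIndependent
    have h2 : IsUnit (Matrix.of fun j i => b j i) := Matrix.linearIndependent_rows_iff_isUnit.1 h1
    have h3 : (Matrix.of fun i j => b j i) = (Matrix.of fun j i => b j i).transpose := rfl
    rw [h3, Matrix.det_transpose]
    exact ((Matrix.isUnit_iff_isUnit_det _).1 h2).ne_zero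
  · have h1 : Matrix.toBilin' H (b i) (b j) = 0 := by
      rw [hb, Module.Basis.reindex_apply, Module.Basis.reindex_apply]
      exact hv fun h => hij (e.symm.injective h)
    rw [Matrix.toBilin'_apply] at h1
    rw [Matrix.mul_apply, ← h1, Finset.sum_comm]
    refine Finset.sum_congr rfl fun s _ => ?_
    rw [Matrix.mul_apply, Finset.sum_mul]
    rfl

/-- **The quadratic part.** -/
theorem exists_quad [CharZero K] (h : MvPolynomial (Fin n) K) (h2 : h ∈ wI K 1 2) :
    ∃ (b : Fin n → MvPolynomial (Fin n) K) (S : Finset (Fin n)) (a : Fin n → K),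
      (∀ t, constantCoeff (b t) = 0) ∧ (jk b).det ≠ 0 ∧ (∀ s ∈ S, a s ≠ 0) ∧
      aeval b h - ∑ s ∈ S, C (a s) * X s ^ 2 ∈ wI K 1 3 := by
  classical
  obtain ⟨A, hA, hd⟩ := exists_diag (hs h) (hs_symm h)
  set F := aeval (lc A) h with hF
  have hFh : hs F = A.transpose * hs h * A := hs_lc A h
  have hF2 : F ∈ wI K 1 2 := aeval_mem h2 _ fun t => mem_one_iff.2 (cc_lc A t)
  set S : Finset (Fin n) := Finset.univ.filter fun s => hs F s s ≠ 0 with hS
  have h2K : (2 : K) ≠ 0 := two_ne_zero
  refine ⟨lc A, S, fun s => hs F s s / 2, cc_lc A, by rw [jk_lc]; exact hA, fun s hs => ?_, ?_⟩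
  · exact div_ne_zero (Finset.mem_filter.1 hs).2 h2K
  · have hX : ∀ s, (C (hs F s s / 2) * X s ^ 2 : MvPolynomial (Fin n) K) ∈ wI K 1 2 := by
      intro s
      refine Ideal.mul_mem_left _ _ ?_
      have h3 : (X s : MvPolynomial (Fin n) K) ∈ wI K 1 1 := by
        rw [mem_one_iff, constantCoeff_X]
      have := wI_pow h3 2
      rwa [mul_one] at this
    refine mem_three (Ideal.sub_mem _ hF2 (Ideal.sum_mem _ fun s _ => hX s)) fun i j => ?_
    have h3 : hs (∑ s ∈ S, C (hs F s s / 2) * X s ^ 2 : MvPolynomial (Fin n) K) i j =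
        if i = j then hs F i i else 0 := by
      rw [hs_apply, map_sum, map_sum, map_sum]
      have h4 : ∀ s, constantCoeff (pderiv i (pderiv j
          (C (hs F s s / 2) * X s ^ 2 : MvPolynomial (Fin n) K))) =
          if s = j then (if i = j then hs F s s else 0) else 0 := by
        intro s
        rw [pderiv_C_mul, pderiv_pow]
        by_cases hsj : s = j
        · subst hsj
          rw [pderiv_X_self, if_pos rfl]
          by_cases his : i = s
          · subst his
            rw [if_pos rfl]
            have e : C (hs F i i / 2) * (((2 : ℕ) : MvPolynomial (Fin n) K) * X i ^ (2 - 1) * 1) =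
                C (hs F i i) * X i := by
              have : (C (hs F i i) : MvPolynomial (Fin n) K) =
                  C (hs F i i / 2) * ((2 : ℕ) : MvPolynomial (Fin n) K) := by
                have h5 : ((2 : ℕ) : MvPolynomial (Fin n) K) = C (2 : K) := by
                  rw [map_ofNat]
                  norm_num
                rw [h5, ← C_mul, div_mul_cancel₀ _ h2K]
              rw [this]
              norm_num
              ring
            rw [e, pderiv_C_mul, pderiv_X_self, mul_one, constantCoeff_C]
          · rw [if_neg his]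
            have e : C (hs F s s / 2) * (((2 : ℕ) : MvPolynomial (Fin n) K) * X s ^ (2 - 1) * 1) =
                C (hs F s s) * X s := by
              have : (C (hs F s s) : MvPolynomial (Fin n) K) =
                  C (hs F s s / 2) * ((2 : ℕ) : MvPolynomial (Fin n) K) := by
                have h5 : ((2 : ℕ) : MvPolynomial (Fin n) K) = C (2 : K) := by
                  rw [map_ofNat]
                  norm_num
                rw [h5, ← C_mul, div_mul_cancel₀ _ h2K]
              rw [this]
              norm_num
              ring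
            rw [e, pderiv_C_mul, pderiv_X_of_ne (Ne.symm his), mul_zero, map_zero]
        · rw [if_neg hsj, pderiv_X_of_ne hsj]
          simp
      rw [Finset.sum_congr rfl fun s _ => h4 s, Finset.sum_ite_eq']
      by_cases hij : i = j
      · subst hij
        rw [if_pos rfl]
        by_cases hi : i ∈ S
        · rw [if_pos hi]
        · rw [if_neg hi]
          by_contra hc
          exact hi (Finset.mem_filter.2 ⟨Finset.mem_univ i, Ne.symm hc⟩)
      · rw [if_neg hij, if_neg hij]
        split_ifs <;> rfl
    have h5 : hs (F - ∑ s ∈ S, C (hs F s s / 2) * X s ^ 2) i j = hs F i j -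
        hs (∑ s ∈ S, C (hs F s s / 2) * X s ^ 2 : MvPolynomial (Fin n) K) i j := by
      rw [hs_apply, map_sub, map_sub, map_sub]
      rfl
    rw [h5, h3]
    by_cases hij : i = j
    · subst hij
      rw [if_pos rfl, sub_self]
    · rw [if_neg hij, sub_zero, hFh, hd i j hij]

end Pool.Agent.H940.S
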