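import Pool.Agent.H940.S.Quad

set_option autoImplicit false
set_option linter.unusedSectionVars false
set_option linter.unusedVariables false

/-! # The splitting lemma, modulo terms of high degree -/

namespace Pool.Agent.H940.S

open MvPolynomial Pool.Agent.H940.R

variable {K : Type} [Field K] {n : ℕ}

open Classical in
/-- the restriction to `x_s = 0`, `s ∈ S` -/
noncomputable def ev (S : Finset (Fin n)) : MvPolynomial (Fin n) K →ₐ[K] MvPolynomial (Fin n) K :=
  aeval fun i => if i ∈ S then 0 else X i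

theorem ev_X_mem {S : Finset (Fin n)} {i : Fin n} (h : i ∈ S) :
    ev S (X i : MvPolynomial (Fin n) K) = 0 := by
  unfold ev
  rw [aeval_X, if_pos h]

theorem ev_X_notMem {S : Finset (Fin n)} {i : Fin n} (h : i ∉ S) :
    ev S (X i : MvPolynomial (Fin n) K) = X i := by
  unfold ev
  rw [aeval_X, if_neg h]

theorem X_mem (i : Fin n) : (X i : MvPolynomial (Fin n) K) ∈ wI K 1 1 := by
  rw [mem_one_iff, constantCoeff_X]

theorem ev_mem (S : Finset (Fin n)) {F : MvPolynomial (Fin n) K} {k : ℕ} (h : F ∈ wI K 1 k) :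
    ev S F ∈ wI K 1 k := by
  classical
  refine aeval_mem h _ fun i => ?_
  split_ifs
  · exact Ideal.zero_mem _
  · exact X_mem i

theorem aeval_ev (S : Finset (Fin n)) (σ : Fin n → MvPolynomial (Fin n) K)
    (h : ∀ i, i ∉ S → σ i = X i) (F : MvPolynomial (Fin n) K) : aeval σ (ev S F) = ev S F := by
  have h1 : (aeval σ).comp (ev S) = (ev S : MvPolynomial (Fin n) K →ₐ[K] _) := by
    apply algHom_ext
    intro i
    rw [AlgHom.comp_apply]
    by_cases hi : i ∈ S
    · rw [ev_X_mem hi, map_zero]
    · rw [ev_X_notMem hi, aeval_X, h i hi]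
  exact AlgHom.congr_fun h1 F

theorem ev_ev (S : Finset (Fin n)) (F : MvPolynomial (Fin n) K) : ev S (ev S F) = ev S F := by
  classical
  exact aeval_ev S _ (fun i hi => if_neg hi) F

open Classical in
theorem coeff_ev (S : Finset (Fin n)) (F : MvPolynomial (Fin n) K) (α : Fin n →₀ ℕ) :
    coeff α (ev S F) = if ∀ s ∈ S, α s = 0 then coeff α F else 0 := by
  induction F using MvPolynomial.induction_on' with
  | monomial β c =>
    have h1 : ev S (monomial β c : MvPolynomial (Fin n) K) =
        if ∀ s ∈ S, β s = 0 then monomial β c else 0 := by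
      unfold ev
      rw [aeval_monomial, algebraMap_eq, Finsupp.prod_fintype _ _ (fun i => pow_zero _)]
      by_cases h : ∀ s ∈ S, β s = 0
      · rw [if_pos h, monomial_eq, Finsupp.prod_fintype _ _ (fun i => pow_zero _)]
        congr 1
        refine Finset.prod_congr rfl fun i _ => ?_
        by_cases hi : i ∈ S
        · rw [h i hi, pow_zero, pow_zero]
        · rw [if_neg hi]
      · rw [if_neg h]
        push Not at h
        obtain ⟨s, hs, hs'⟩ := h
        rw [Finset.prod_eq_zero (Finset.mem_univ s) (by rw [if_pos hs, zero_pow hs']), mul_zero]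
    rw [h1]
    by_cases hα : β = α
    · subst hα
      split_ifs
      · rfl
      · rw [coeff_zero]
    · by_cases h : ∀ s ∈ S, β s = 0
      · rw [if_pos h, coeff_monomial, if_neg hα]
        split_ifs <;> rfl
      · rw [if_neg h, coeff_zero, coeff_monomial, if_neg hα]
        split_ifs <;> rfl
  | add p q hp hq =>
    rw [map_add, coeff_add, coeff_add, hp, hq]
    split_ifs
    · rfl
    · rw [add_zero]

/-- division by the variables in `S` -/
theorem exists_div (S : Finset (Fin n)) (E : MvPolynomial (Fin n) K) (hE : ev S E = 0) (k : ℕ)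
    (hk : E ∈ wI K 1 (k + 1)) : ∃ e : Fin n → MvPolynomial (Fin n) K, (∀ s, e s ∈ wI K 1 k) ∧
      (∀ s, s ∉ S → e s = 0) ∧ E = ∑ s, X s * e s := by
  classical
  have hex : ∀ α : E.support, ∃ s, s ∈ S ∧ α.1 s ≠ 0 := by
    intro α
    have h1 := coeff_ev S E α.1
    rw [hE, coeff_zero] at h1
    by_contra hc
    push Not at hc
    rw [if_pos fun s hs => hc s hs] at h1
    exact (mem_support_iff.1 α.2) h1.symm
  choose c hc1 hc2 using hex
  refine ⟨fun s => ∑ α ∈ Finset.univ.filter fun α : E.support => c α = s,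
    monomial (α.1 - Finsupp.single s 1) (coeff α.1 E), fun s => ?_, fun s hs => ?_, ?_⟩
  · refine Ideal.sum_mem _ fun α hα => ?_
    have hαs : c α = s := (Finset.mem_filter.1 hα).2
    intro d hd
    rw [coeff_monomial]
    split_ifs with h
    · exfalso
      have h2 : Finsupp.single s 1 ≤ α.1 := by
        rw [Finsupp.single_le_iff, ← hαs]
        exact Nat.one_le_iff_ne_zero.2 (hc2 α)
      have h3 : α.1 = d + Finsupp.single s 1 := by
        rw [← h, tsub_add_cancel_of_le h2]
      have h4 := hk α.1 (by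
        rw [h3, map_add, Finsupp.weight_single]
        simp only [Pi.one_apply, smul_eq_mul, mul_one]
        omega)
      exact (mem_support_iff.1 α.2) h4
    · rfl
  · refine Finset.sum_eq_zero fun α hα => ?_
    exfalso
    apply hs
    rw [← (Finset.mem_filter.1 hα).2]
    exact hc1 α
  · have h1 : ∀ s, X s * ∑ α ∈ Finset.univ.filter fun α : E.support => c α = s,
        monomial (α.1 - Finsupp.single s 1) (coeff α.1 E) =
        ∑ α : E.support, if c α = s then monomial α.1 (coeff α.1 E) else 0 := by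
      intro s
      rw [Finset.mul_sum, ← Finset.sum_filter]
      refine Finset.sum_congr rfl fun α hα => ?_
      have hαs : c α = s := (Finset.mem_filter.1 hα).2
      have h2 : Finsupp.single s 1 ≤ α.1 := by
        rw [Finsupp.single_le_iff, ← hαs]
        exact Nat.one_le_iff_ne_zero.2 (hc2 α)
      rw [X, monomial_mul, one_mul, add_tsub_cancel_of_le h2]
    rw [Finset.sum_congr rfl fun s _ => h1 s, Finset.sum_comm]
    have h2 : ∀ α : E.support, ∑ s, (if c α = s then monomial α.1 (coeff α.1 E) else 0) =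
        monomial α.1 (coeff α.1 E) := by
      intro α
      rw [Finset.sum_ite_eq, if_pos (Finset.mem_univ _)]
    rw [Finset.sum_congr rfl fun α _ => h2 α]
    conv_lhs => rw [E.as_sum]
    exact (Finset.sum_coe_sort E.support fun α => monomial α (coeff α E)).symm

/-- the quadratic form -/
noncomputable def QS (S : Finset (Fin n)) (a : Fin n → K) : MvPolynomial (Fin n) K :=
  ∑ s ∈ S, C (a s) * X s ^ 2

/-- one step -/
theorem split_step [CharZero K] {S : Finset (Fin n)} {a : Fin n → K} (ha : ∀ s ∈ S, a s ≠ 0)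
    {F : MvPolynomial (Fin n) K} {k : ℕ} (hk : 3 ≤ k) (hF : F ∈ wI K 1 3)
    (hE : F - ev S F ∈ wI K 1 k) : ∃ (σ : Fin n → MvPolynomial (Fin n) K)
      (F' : MvPolynomial (Fin n) K), (∀ t, σ t - X t ∈ wI K 1 2) ∧
      aeval σ (QS S a + F) = QS S a + F' ∧ F' ∈ wI K 1 3 ∧ F' - ev S F' ∈ wI K 1 (k + 1) := by
  classical
  obtain ⟨l, rfl⟩ : ∃ l, k = l + 1 := ⟨k - 1, by omega⟩
  have hev : ev S (F - ev S F) = 0 := by rw [map_sub, ev_ev, sub_self]
  obtain ⟨e, he1, he2, he3⟩ := exists_div S _ hev l hE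
  set E := F - ev S F with hEd
  set δ : Fin n → MvPolynomial (Fin n) K := fun s => -(C ((2 * a s)⁻¹) * e s) with hδ
  have hδm : ∀ s, δ s ∈ wI K 1 l := fun s =>
    Ideal.neg_mem_iff _ |>.2 (Ideal.mul_mem_left _ _ (he1 s))
  set σ : Fin n → MvPolynomial (Fin n) K := fun s => X s + δ s with hσ
  have hσX : ∀ s, s ∉ S → σ s = X s := by
    intro s hs
    simp only [hσ, hδ]
    rw [he2 s hs, mul_zero, neg_zero, add_zero]
  -- the quadratic form
  have hQ : aeval σ (QS S a) = QS S a - E + ∑ s ∈ S, C ((4 * a s)⁻¹) * e s ^ 2 := by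
    have hES : E = ∑ s ∈ S, X s * e s := by
      rw [he3]
      symm
      refine Finset.sum_subset (Finset.subset_univ S) fun s _ hs => ?_
      rw [he2 s hs, mul_zero]
    rw [hES]
    unfold QS
    rw [map_sum, ← Finset.sum_sub_distrib, ← Finset.sum_add_distrib]
    refine Finset.sum_congr rfl fun s hs => ?_
    rw [map_mul, map_pow, aeval_X, algHom_C, algebraMap_eq]
    simp only [hσ, hδ]
    have h2 : a s ≠ 0 := ha s hs
    have h3 : (C (a s) * C ((2 * a s)⁻¹) * C (2 : K) : MvPolynomial (Fin n) K) = 1 := by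
      rw [← C_mul, ← C_mul, ← C_1]
      congr 1
      field_simp
    have h4 : (C (a s) * C ((2 * a s)⁻¹) * C ((2 * a s)⁻¹) : MvPolynomial (Fin n) K) =
        C ((4 * a s)⁻¹) := by
      rw [← C_mul, ← C_mul]
      congr 1
      field_simp
      norm_num
    have h5 : (C (2 : K) : MvPolynomial (Fin n) K) = 2 := by
      rw [map_ofNat]
    rw [h5] at h3
    linear_combination (-(X s * e s)) * h3 + e s ^ 2 * h4
  -- the rest
  have hR : aeval σ F = ev S F + E + (aeval σ E - E) := by
    have h1 : F = ev S F + E := by rw [hEd]; ring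
    conv_lhs => rw [h1, map_add, aeval_ev S σ hσX]
    ring
  have hT : aeval σ E - E ∈ wI K 1 (l + 1 + 1) := by
    have h1 := taylor_mem E X δ hδm
    rw [aeval_X_left, AlgHom.id_apply] at h1
    have h2 : ∑ s, (AlgHom.id K (MvPolynomial (Fin n) K)) (pderiv s E) * δ s ∈
        wI K 1 (l + 1 + 1) := by
      refine Ideal.sum_mem _ fun s _ => ?_
      rw [AlgHom.id_apply]
      refine wI_mono ?_ (wI_mul (pderiv_mem hE s) (hδm s))
      omega
    have e1 : aeval σ E - E = (aeval σ E - E - ∑ s, (AlgHom.id K (MvPolynomial (Fin n) K))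
        (pderiv s E) * δ s) + ∑ s, (AlgHom.id K (MvPolynomial (Fin n) K)) (pderiv s E) * δ s := by
      ring
    rw [e1]
    exact Ideal.add_mem _ (wI_mono (by omega) h1) h2
  set G := (aeval σ E - E) + ∑ s ∈ S, C ((4 * a s)⁻¹) * e s ^ 2 with hG
  have hGm : G ∈ wI K 1 (l + 1 + 1) := by
    refine Ideal.add_mem _ hT (Ideal.sum_mem _ fun s _ => Ideal.mul_mem_left _ _ ?_)
    exact wI_mono (by omega) (wI_pow (he1 s) 2)
  refine ⟨σ, ev S F + G, fun t => ?_, ?_, ?_, ?_⟩
  · have : σ t - X t = δ t := by simp only [hσ]; ring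
    rw [this]
    exact wI_mono (by omega) (hδm t)
  · rw [map_add, hQ, hR, hG]
    ring
  · exact Ideal.add_mem _ (ev_mem S hF) (wI_mono (by omega) hGm)
  · rw [map_add, ev_ev]
    have e1 : ev S F + G - (ev S F + ev S G) = G - ev S G := by ring
    rw [e1]
    exact Ideal.sub_mem _ hGm (ev_mem S hGm)

/-- **The splitting lemma.** -/
theorem split [CharZero K] {S : Finset (Fin n)} {a : Fin n → K} (ha : ∀ s ∈ S, a s ≠ 0)
    {F : MvPolynomial (Fin n) K} (hF : F ∈ wI K 1 3) (k : ℕ) :
    ∃ (σ : Fin n → MvPolynomial (Fin n) K) (F' : MvPolynomial (Fin n) K),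
      (∀ t, σ t - X t ∈ wI K 1 2) ∧ aeval σ (QS S a + F) = QS S a + F' ∧ F' ∈ wI K 1 3 ∧
      F' - ev S F' ∈ wI K 1 (k + 3) := by
  induction k with
  | zero =>
    refine ⟨X, F, fun t => by rw [sub_self]; exact Ideal.zero_mem _, ?_, hF,
      Ideal.sub_mem _ hF (ev_mem S hF)⟩
    rw [aeval_X_left, AlgHom.id_apply]
  | succ k ih =>
    obtain ⟨σ, F', h1, h2, h3, h4⟩ := ih
    obtain ⟨τ, F'', h5, h6, h7, h8⟩ := split_step ha (by omega) h3 h4
    refine ⟨fun t => aeval τ (σ t), F'', fun t => ?_, ?_, h7, wI_mono (by omega) h8⟩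
    · have h9 := aeval_mem (h1 t) τ fun s => by
        have e : τ s = (τ s - X s) + X s := by ring
        rw [e]
        exact Ideal.add_mem _ (wI_mono one_le_two (h5 s)) (X_mem s)
      rw [map_sub, aeval_X] at h9
      have e : aeval τ (σ t) - X t = (aeval τ (σ t) - τ t) + (τ t - X t) := by ring
      rw [e]
      exact Ideal.add_mem _ h9 (h5 t)
    · rw [← aeval_aeval, h2, h6]

/-- coordinates which are congruent to the identity -/
theorem jk_of_cong {σ : Fin n → MvPolynomial (Fin n) K} (h : ∀ t, σ t - X t ∈ wI K 1 2) :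
    (∀ t, constantCoeff (σ t) = 0) ∧ (jk σ).det ≠ 0 := by
  classical
  constructor
  · intro t
    have h1 := mem_one_iff.1 (wI_mono one_le_two (h t))
    rw [map_sub, constantCoeff_X, sub_zero] at h1
    exact h1
  · have h1 : jk σ = 1 := by
      ext t s
      have h2 := (mem_two.1 (h t)).2 s
      rw [map_sub, map_sub, sub_eq_zero] at h2
      unfold jk
      rw [Matrix.of_apply, h2, pderiv_X, Matrix.one_apply, Pi.single_apply]
      by_cases hts : t = s
      · rw [if_pos hts, if_pos hts, map_one]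
      · rw [if_neg hts, if_neg hts, map_zero]
    rw [h1, Matrix.det_one]
    exact one_ne_zero

end Pool.Agent.H940.S
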